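import Pool.Agent.Lib.MP_cd184e_ag.B.Loc

/-! The absolute Frobenius morphism of a scheme of characteristic `p`. -/

set_option autoImplicit false

namespace Pool.Agent.Lib.MP_cd184e_ag.B

open CategoryTheory AlgebraicGeometry Opposite TopologicalSpace

/-- The `p`-th power map of a commutative ring in which `p = 0`. -/
def powHom (R : Type) [CommRing R] (p : ℕ) (hp : p.Prime) (h : (p : R) = 0) : R →+* R where
  toFun x := x ^ p
  map_one' := one_pow p
  map_mul' x y := mul_pow x y p
  map_zero' := zero_pow hp.ne_zero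
  map_add' x y := by
    obtain ⟨r, hr⟩ := exists_add_pow_prime_eq hp x y
    rw [hr, h]
    simp

theorem cast_eq_zero {X : Scheme.{0}} {p : ℕ} (h : (p : Γ(X, ⊤)) = 0) (U : X.Opens) :
    (p : Γ(X, U)) = 0 := by
  rw [← map_natCast (rres (le_top : U ≤ ⊤)), h, map_zero]

/-- The Frobenius on the level of ringed spaces: the identity on points, the `p`-th power on
functions. -/
noncomputable def frobPre (X : Scheme.{0}) (p : ℕ) (hp : p.Prime) (h : (p : Γ(X, ⊤)) = 0) :
    X.toPresheafedSpace.Hom X.toPresheafedSpace where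
  base := 𝟙 _
  c :=
    { app U := CommRingCat.ofHom (powHom Γ(X, U.unop) p hp (cast_eq_zero h _))
      naturality U V i := by
        ext x
        exact (map_pow (X.presheaf.map i).hom x p).symm }

/-- The absolute Frobenius morphism of a scheme on which `p = 0`: the identity on points, the
`p`-th power on functions. -/
noncomputable def absFrob (X : Scheme.{0}) (p : ℕ) (hp : p.Prime) (h : (p : Γ(X, ⊤)) = 0) :
    X ⟶ X :=
  ⟨⟨frobPre X p hp h, fun x => ⟨fun a ha => by
    obtain ⟨U, hx, s, rfl⟩ := X.presheaf.exists_germ_eq a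
    have e := PresheafedSpace.stalkMap_germ_apply (frobPre X p hp h) U x hx s
    have e' : (frobPre X p hp h).stalkMap x (X.presheaf.germ U x hx s) =
        X.presheaf.germ U x hx s ^ p := e.trans (map_pow (X.presheaf.germ U x hx).hom s p)
    exact (isUnit_pow_iff hp.ne_zero).1 (e' ▸ ha)⟩⟩⟩

theorem absFrob_apply (X : Scheme.{0}) (p : ℕ) (hp : p.Prime) (h : (p : Γ(X, ⊤)) = 0) (x : X) :
    absFrob X p hp h x = x := rfl

theorem absFrob_app (X : Scheme.{0}) (p : ℕ) (hp : p.Prime) (h : (p : Γ(X, ⊤)) = 0)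
    (U : X.Opens) (s : Γ(X, U)) : (absFrob X p hp h).app U s = (s ^ p : Γ(X, U)) := rfl

/-- The Frobenius pushforward of the structure sheaf. -/
noncomputable def frobPush (X : Scheme.{0}) (p : ℕ) (hp : p.Prime) (h : (p : Γ(X, ⊤)) = 0) :
    X.Modules :=
  (Scheme.Modules.pushforward (absFrob X p hp h)).obj (SheafOfModules.unit X.ringCatSheaf)

section

variable {X : Scheme.{0}} {p : ℕ} {hp : p.Prime} {h : (p : Γ(X, ⊤)) = 0}

/-- Sections of the Frobenius pushforward are functions. -/
noncomputable def frobSec (U : X.Opens) : Γ(frobPush X p hp h, U) ≃+ Γ(X, U) := AddEquiv.refl _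

theorem frobSec_smul (U : X.Opens) (r : Γ(X, U)) (s : Γ(frobPush X p hp h, U)) :
    frobSec U (r • s) = r ^ p * frobSec U s := rfl

theorem frobSec_mres {U V : X.Opens} (hV : V ≤ U) (s : Γ(frobPush X p hp h, U)) :
    frobSec V (mres _ hV s) = rres hV (frobSec U s) := rfl

theorem locAt_frobPush {U : X.Opens} (hU : IsAffineOpen U) : LocAt (frobPush X p hp h) U := by
  refine ⟨fun f W hW e s => ?_, fun f W hW e t ht => ?_⟩
  · subst e
    have loc := hU.isLocalization_basicOpen f
    obtain ⟨⟨a, ⟨_, l, rfl⟩⟩, ha⟩ := IsLocalization.surj (Submonoid.powers f) (frobSec _ s)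
    have ha' : frobSec _ s * rres hW f ^ l = rres hW a := by
      rw [← map_pow]
      exact ha
    refine ⟨l, (frobSec U).symm (f ^ (l * (p - 1)) * a), (frobSec _).injective ?_⟩
    rw [frobSec_mres, frobSec_smul, AddEquiv.apply_symm_apply, map_mul, map_pow, ← ha']
    obtain ⟨q, rfl⟩ : ∃ q, p = q + 1 := ⟨p - 1, by have := hp.pos; omega⟩
    rw [Nat.add_sub_cancel]
    ring
  · subst e
    have loc := hU.isLocalization_basicOpen f
    have h0 : rres hW (frobSec U t) = 0 := by rw [← frobSec_mres, ht, map_zero]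
    obtain ⟨⟨_, l, rfl⟩, hl⟩ :=
      (IsLocalization.map_eq_zero_iff (Submonoid.powers f) Γ(X, X.basicOpen f) _).1 h0
    refine ⟨l, (frobSec _).injective ?_⟩
    obtain ⟨q, rfl⟩ : ∃ q, p = q + 1 := ⟨p - 1, by have := hp.pos; omega⟩
    rw [frobSec_smul, map_zero, pow_succ, mul_assoc]
    exact (congrArg ((f ^ l) ^ q * ·) hl).trans (mul_zero _)

end

end Pool.Agent.Lib.MP_cd184e_ag.B
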