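import Pool.Agent.Lib.MP_cd184e_ag.B.Tang
import Pool.Agent.Lib.MP_cd184e_ag.B.Frob

/-! The notions used in the statement about schemes. -/

set_option autoImplicit false

namespace Pool.Agent.Lib.MP_cd184e_ag.B

open CategoryTheory AlgebraicGeometry

/-- The category of coherent sheaves on a noetherian scheme: the finitely presented sheaves of
modules. -/
abbrev CohCat (Y : Scheme.{0}) : Type 1 :=
  ObjectProperty.FullSubcategory fun M : Y.Modules => M.IsFinitePresentation

/-- The object `T` of the abelian category `C` is tilting: in the derived category there is no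
nonzero morphism from `T` to a positive shift of `T`, and the smallest thick triangulated
subcategory containing `T` contains every bounded object. -/
def Tilting {C : Type 1} [Category.{0} C] [Abelian C] [HasDerivedCategory.{1} C] (T : C) : Prop :=
  (∀ n : ℤ, 1 ≤ n → Subsingleton ((DerivedCategory.singleFunctor C 0).obj T ⟶
      ((DerivedCategory.singleFunctor C 0).obj T)⟦n⟧)) ∧
    ∀ Z : DerivedCategory C, (∃ a b : ℤ, Z.IsGE a ∧ Z.IsLE b) →
      ObjectProperty.triangEnvelope (fun W => W = (DerivedCategory.singleFunctor C 0).obj T) Z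

/-- A sheaf of modules on a scheme is tilting: it is coherent, and tilting in the abelian category
of coherent sheaves. -/
def IsTiltingSheaf {Y : Scheme.{0}} (M : Y.Modules) : Prop :=
  ∃ (h : M.IsFinitePresentation) (_ : Abelian (CohCat Y)),
    letI := HasDerivedCategory.standard (CohCat Y)
    Tilting (⟨M, h⟩ : CohCat Y)

variable {k : Type} [Field k]

/-- The structure morphism of `Proj` of a graded `k`-algebra. -/
noncomputable def strMap {S : Type} [CommRing S] [Algebra k S] (𝒜 : ℕ → Submodule k S)
    [GradedAlgebra 𝒜] : Proj 𝒜 ⟶ Spec (.of k) :=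
  Proj.toSpecZero 𝒜 ≫ Spec.map (CommRingCat.ofHom (algebraMap k (𝒜 0)))

theorem cast_top_eq_zero {Y : Scheme.{0}} (f : Y ⟶ Spec (.of k)) (p : ℕ) [CharP k p] :
    (p : Γ(Y, ⊤)) = 0 := by
  rw [← map_natCast (const f ⊤), CharP.cast_eq_zero, map_zero]

end Pool.Agent.Lib.MP_cd184e_ag.B
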