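import Pool.Agent.Lib.MP_cd184e_ag.B.Push
import Pool.Agent.Lib.MP_cd184e_ag.B.Stmt
import Pool.Agent.Lib.MP_cd184e_ag.T.Tilt

/-! Finitely presented sheaves of modules on a scheme and their sections over an affine cover. -/

set_option autoImplicit false

namespace Pool.Agent.Lib.MP_cd184e_ag.B

open CategoryTheory AlgebraicGeometry Opposite TopologicalSpace Limits
open Pool.Agent.Lib.MP_cd184e_ag.T

variable {k K : Type} [Field k] [Field K] [Algebra k K]

/-- Union of two sets of charts. -/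
def un {X : ProjVar k K} (s t : X.Idx) : X.Idx :=
  ⟨s.1 ∪ t.1, s.2.1.mono Finset.subset_union_left, Finset.union_subset s.2.2 t.2.2⟩

theorem le_un_left {X : ProjVar k K} (s t : X.Idx) : s ≤ un s t := Finset.subset_union_left

theorem le_un_right {X : ProjVar k K} (s t : X.Idx) : t ≤ un s t := Finset.subset_union_right

theorem un_le {X : ProjVar k K} {s t u : X.Idx} (h : s ≤ u) (h' : t ≤ u) : un s t ≤ u :=
  Finset.union_subset h h'

/-- An affine open cover of the scheme `Y` whose rings of functions are those of `X`. -/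
structure Model (X : ProjVar k K) (Y : Scheme.{0}) where
  U : X.Idx → Y.Opens
  aff : ∀ s, IsAffineOpen (U s)
  anti : ∀ {s t : X.Idx}, s ≤ t → U t ≤ U s
  e : ∀ s, Γ(Y, U s) ≃+* X.A s.1
  e_res : ∀ {s t : X.Idx} (h : s ≤ t) (a : Γ(Y, U s)), e t (rres (anti h) a) = X.inc h (e s a)
  basic : ∀ {s t : X.Idx}, s ≤ t → ∃ g : Γ(Y, U s), U t = Y.basicOpen g
  inf : ∀ s t, U s ⊓ U t ≤ U (un s t)
  cover : iSup U = ⊤

namespace Model

variable {X : ProjVar k K} {Y : Scheme.{0}} (𝓜 : Model X Y)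

theorem noeth (s : X.Idx) : IsNoetherianRing Γ(Y, 𝓜.U s) :=
  isNoetherianRing_of_ringEquiv _ (𝓜.e s).symm

theorem symm_inc {s t : X.Idx} (h : s ≤ t) (a : X.A s.1) :
    (𝓜.e t).symm (X.inc h a) = rres (𝓜.anti h) ((𝓜.e s).symm a) := by
  rw [RingEquiv.symm_apply_eq, 𝓜.e_res, RingEquiv.apply_symm_apply]

theorem isUnit_inc {s t : X.Idx} (h : s ≤ t) {g : Γ(Y, 𝓜.U s)} (hg : 𝓜.U t = Y.basicOpen g)
    (n : ℕ) : IsUnit (X.inc h (𝓜.e s (g ^ n))) := by
  rw [← 𝓜.e_res, map_pow]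
  exact ((isUnit_rres g _ hg.le).pow n).map _

theorem locAt (M : CohCat Y) (s : X.Idx) : LocAt M.obj (𝓜.U s) := by
  obtain ⟨q, -⟩ := M.property.exists_quasicoherentData
  have : M.obj.IsQuasicoherent := q.isQuasicoherent
  exact locAt_of_qcoh _ (𝓜.aff s)

/-- The sections of a coherent sheaf over the charts. -/
noncomputable def secObj (M : CohCat Y) : Coh X where
  obj s := Γ(M.obj, 𝓜.U s)
  mod s := Module.compHom _ (𝓜.e s).symm.toRingHom
  res h := mres M.obj (𝓜.anti h)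
  res_smul h a x := by
    change mres _ _ ((𝓜.e _).symm a • x) = (𝓜.e _).symm (X.inc h a) • _
    rw [mres_smul, symm_inc]
  res_refl x := mres_self _ _ x
  res_res h h' x := mres_mres _ _ _ x
  fg s := by
    have := M.property
    have := finite_of_fp M.obj (𝓜.aff s)
    exact finite_compHom _ (RingHom.Finite.of_surjective _ (𝓜.e s).symm.surjective) _
  surj {s t} h y := by
    obtain ⟨g, hg⟩ := 𝓜.basic h
    obtain ⟨n, x, hx⟩ := (𝓜.locAt M s).ex g _ (𝓜.anti h) hg y
    refine ⟨𝓜.e s (g ^ n), x, 𝓜.isUnit_inc h hg n, ?_⟩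
    change (𝓜.e _).symm (X.inc h _) • y = _
    rw [symm_inc, RingEquiv.symm_apply_apply, map_pow, hx]
  inj {s t} h x hx := by
    obtain ⟨g, hg⟩ := 𝓜.basic h
    obtain ⟨n, hn⟩ := (𝓜.locAt M s).un g _ (𝓜.anti h) hg x hx
    refine ⟨𝓜.e s (g ^ n), 𝓜.isUnit_inc h hg n, ?_⟩
    change (𝓜.e s).symm (𝓜.e s (g ^ n)) • x = 0
    rw [RingEquiv.symm_apply_apply, hn]

/-- The functor of sections over the charts. -/
noncomputable def sec : CohCat Y ⥤ Coh X where
  obj := 𝓜.secObj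
  map φ :=
    { app s :=
        { toFun := φ.hom.app (𝓜.U s)
          map_add' := map_add _
          map_smul' a x := Scheme.Modules.Hom.app_smul φ.hom ((𝓜.e s).symm a) x }
      nat h x := (mres_app φ.hom (𝓜.anti h) x).symm }
  map_id _ := rfl
  map_comp _ _ := rfl

theorem faithful : 𝓜.sec.Faithful where
  map_injective {M _} _ _ h := ObjectProperty.hom_ext _
    (hom_ext_of_loc 𝓜.U 𝓜.aff (𝓜.locAt M) (conc_top _ 𝓜.cover) _ _ fun s m =>
      congrArg (fun χ => Coh.Hom.app χ s m) h)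

theorem full : 𝓜.sec.Full where
  map_surjective {M N} χ := by
    let φ : ∀ s, Γ(M.obj, 𝓜.U s) →ₗ[Γ(Y, 𝓜.U s)] Γ(N.obj, 𝓜.U s) := fun s =>
      { toFun := χ.app s
        map_add' := map_add _
        map_smul' := fun a x => by
          obtain ⟨a, rfl⟩ := (𝓜.e s).symm.surjective a
          exact (χ.app s).map_smul a x }
    obtain ⟨ψ, hψ⟩ := exists_hom (φ := φ) 𝓜.aff (𝓜.locAt M) (conc_top _ 𝓜.cover) fun s t =>
      ⟨un s t, 𝓜.anti (le_un_left s t), 𝓜.anti (le_un_right s t), 𝓜.inf s t,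
        fun m => (χ.nat (le_un_left s t) m).symm, fun m => (χ.nat (le_un_right s t) m).symm⟩
    exact ⟨ObjectProperty.homMk ψ, Coh.hom_ext hψ⟩

end Model

end Pool.Agent.Lib.MP_cd184e_ag.B
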