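import Pool.Agent.Lib.MP_cd184e_ag.B.Loc

/-! The tangent sheaf of a scheme over a ring: the sheaf of derivations of the structure sheaf. -/

set_option autoImplicit false

namespace Pool.Agent.Lib.MP_cd184e_ag.B

open CategoryTheory AlgebraicGeometry Opposite TopologicalSpace

section

variable {ι k : Type} [Preorder ι] [CommRing k] (R : ι → CommRingCat.{0})
  (res : ∀ V W : ι, V ≤ W → R W →+* R V) (c : ∀ V, k →+* R V)

/-- For a presheaf of `k`-algebras `R` (restriction maps `res`, constants `c`), a derivation over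
`W`: for every `V ≤ W` an additive map on `R V` that satisfies the Leibniz rule and kills the
constants, compatibly with restriction. -/
def IsDer (W : ι) (D : ∀ V : {V : ι // V ≤ W}, R V.1 →+ R V.1) : Prop :=
  (∀ V h a b, D ⟨V, h⟩ (a * b) = a * D ⟨V, h⟩ b + b * D ⟨V, h⟩ a) ∧
    (∀ V h x, D ⟨V, h⟩ (c V x) = 0) ∧
    ∀ V V' (h : V ≤ W) (h' : V' ≤ V) a,
      D ⟨V', h'.trans h⟩ (res V' V h' a) = res V' V h' (D ⟨V, h⟩ a)

theorem isDer_zero (W : ι) : IsDer R res c W 0 :=
  ⟨fun _ _ _ _ => by simp, fun _ _ _ => rfl, fun _ _ _ _ _ => by simp⟩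

theorem isDer_add (W : ι) {D E : ∀ V : {V : ι // V ≤ W}, R V.1 →+ R V.1}
    (hD : IsDer R res c W D) (hE : IsDer R res c W E) : IsDer R res c W (D + E) :=
  ⟨fun V h a b => by
      simp only [Pi.add_apply, AddMonoidHom.add_apply, hD.1, hE.1]
      ring,
    fun V h x => by simp only [Pi.add_apply, AddMonoidHom.add_apply, hD.2.1, hE.2.1, add_zero],
    fun V V' h h' a => by
      simp only [Pi.add_apply, AddMonoidHom.add_apply, hD.2.2 V V' h, hE.2.2 V V' h, map_add]⟩

theorem isDer_neg (W : ι) {D : ∀ V : {V : ι // V ≤ W}, R V.1 →+ R V.1}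
    (hD : IsDer R res c W D) : IsDer R res c W (-D) :=
  ⟨fun V h a b => by
      simp only [Pi.neg_apply, AddMonoidHom.neg_apply, hD.1]
      ring,
    fun V h x => by simp only [Pi.neg_apply, AddMonoidHom.neg_apply, hD.2.1, neg_zero],
    fun V V' h h' a => by
      simp only [Pi.neg_apply, AddMonoidHom.neg_apply, hD.2.2 V V' h, map_neg]⟩

/-- The group of derivations over `W`. -/
def ders (W : ι) : AddSubgroup (∀ V : {V : ι // V ≤ W}, R V.1 →+ R V.1) where
  carrier := {D | IsDer R res c W D}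
  zero_mem' := isDer_zero R res c W
  add_mem' := isDer_add R res c W
  neg_mem' := isDer_neg R res c W

/-- The derivations over `W` as a type. -/
def Der (W : ι) : Type := ders R res c W

instance Der.addCommGroup (W : ι) : AddCommGroup (Der R res c W) :=
  (ders R res c W).toAddCommGroup

/-- The family of maps underlying a derivation. -/
def Der.val {W : ι} (D : Der R res c W) : ∀ V : {V : ι // V ≤ W}, R V.1 →+ R V.1 := D.1

theorem isDer_res {W W' : ι} (i : W' ≤ W) (D : Der R res c W) :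
    IsDer R res c W' fun V => Der.val R res c D ⟨V.1, V.2.trans i⟩ :=
  ⟨fun V h => D.2.1 V (h.trans i), fun V h => D.2.2.1 V (h.trans i),
    fun V V' h => D.2.2.2 V V' (h.trans i)⟩

/-- Restriction of a derivation. -/
def dresFun {W W' : ι} (i : W' ≤ W) (D : Der R res c W) : Der R res c W' :=
  ⟨fun V => Der.val R res c D ⟨V.1, V.2.trans i⟩, isDer_res R res c i D⟩

theorem dresFun_add {W W' : ι} (i : W' ≤ W) (D E : Der R res c W) :
    dresFun R res c i (D + E) = dresFun R res c i D + dresFun R res c i E := rfl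

/-- The group of derivations over `W` as an object. -/
def derObj (W : ιᵒᵖ) : AddCommGrpCat.{0} := .of (Der R res c W.unop)

/-- Restriction of derivations as a morphism. -/
def derMap {W W' : ιᵒᵖ} (i : W ⟶ W') : derObj R res c W ⟶ derObj R res c W' :=
  AddCommGrpCat.ofHom (AddMonoidHom.mk' (dresFun R res c i.unop.le) (dresFun_add R res c _))

theorem derMap_id (W : ιᵒᵖ) : derMap R res c (𝟙 W) = 𝟙 _ := rfl

theorem derMap_comp {W W' W'' : ιᵒᵖ} (i : W ⟶ W') (j : W' ⟶ W'') :
    derMap R res c (i ≫ j) = derMap R res c i ≫ derMap R res c j := rfl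

/-- The presheaf of derivations. -/
def derPresheaf : ιᵒᵖ ⥤ AddCommGrpCat.{0} where
  obj := derObj R res c
  map := derMap R res c
  map_id := derMap_id R res c
  map_comp := derMap_comp R res c

end

variable {Y : Scheme.{0}} {k : Type} [CommRing k] (f : Y ⟶ Spec (.of k))

/-- The constant functions on an open set of a scheme over `k`. -/
noncomputable def const (V : Y.Opens) : k →+* Γ(Y, V) :=
  (rres le_top).comp (f.appTop.hom.comp (Scheme.ΓSpecIso (.of k)).inv.hom)

@[simp] theorem rres_const {V W : Y.Opens} (h : V ≤ W) (c : k) :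
    rres h (const f W c) = const f V c := rres_rres _ _ _

/-- The presheaf of vector fields: the `k`-derivations of the structure sheaf. -/
noncomputable def tangentPresheaf : TopCat.Presheaf AddCommGrpCat.{0} Y :=
  derPresheaf (fun V : Y.Opens => Γ(Y, V)) (fun _ _ h => rres h) (const f)

/-- The vector fields on an open set. -/
noncomputable abbrev vfields (W : Y.Opens) :=
  ders (fun V : Y.Opens => Γ(Y, V)) (fun _ _ h => rres h) (const f) W

/-- Restriction of vector fields. -/
noncomputable def vres {W W' : Y.Opens} (i : W' ≤ W) : vfields f W →+ vfields f W' where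
  toFun D := ⟨fun V => D.1 ⟨V.1, V.2.trans i⟩, fun V h => D.2.1 V (h.trans i),
    fun V h => D.2.2.1 V (h.trans i), fun V V' h => D.2.2.2 V V' (h.trans i)⟩
  map_zero' := rfl
  map_add' _ _ := rfl

theorem fun_ext {V : Y.Opens} {ι : Type} (W : ι → Y.Opens) (hc : V ≤ iSup W) (s t : Γ(Y, V))
    (h : ∀ i, rres (inf_le_left : V ⊓ W i ≤ V) s = rres inf_le_left t) : s = t :=
  Y.sheaf.eq_of_locally_eq' (fun i => V ⊓ W i) V (fun _ => homOfLE inf_le_left)
    (by rw [← inf_iSup_eq]; exact le_inf le_rfl hc) s t h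

theorem fun_glue {V : Y.Opens} {ι : Type} (W : ι → Y.Opens) (hW : ∀ i, W i ≤ V)
    (hc : V ≤ iSup W) (s : ∀ i, Γ(Y, W i))
    (hs : ∀ i j, rres (inf_le_left : W i ⊓ W j ≤ W i) (s i) = rres inf_le_right (s j)) :
    ∃ t : Γ(Y, V), ∀ i, rres (hW i) t = s i := by
  obtain ⟨t, ht, -⟩ := Y.sheaf.existsUnique_gluing' W V (fun i => homOfLE (hW i)) hc s hs
  exact ⟨t, ht⟩

theorem vfields_glue {ι : Type} (W : ι → Y.Opens) (D : ∀ i, vfields f (W i))
    (hD : ∀ i j, vres f (inf_le_left : W i ⊓ W j ≤ W i) (D i) = vres f inf_le_right (D j)) :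
    ∃! E : vfields f (iSup W), ∀ i, vres f (le_iSup W i) E = D i := by
  have hD' : ∀ i j V (hi : V ≤ W i) (hj : V ≤ W j), (D i).1 ⟨V, hi⟩ = (D j).1 ⟨V, hj⟩ :=
    fun i j V hi hj => congr(($(hD i j)).1 ⟨V, le_inf hi hj⟩)
  have key : ∀ (V : Y.Opens) (_ : V ≤ iSup W) (a : Γ(Y, V)), ∃ t : Γ(Y, V), ∀ i,
      rres (inf_le_left : V ⊓ W i ≤ V) t = (D i).1 ⟨_, inf_le_right⟩ (rres inf_le_left a) := by
    intro V hV a
    refine fun_glue (fun i => V ⊓ W i) (fun _ => inf_le_left)
      (by rw [← inf_iSup_eq]; exact le_inf le_rfl hV) _ fun i j => ?_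
    rw [← (D i).2.2.2, ← (D j).2.2.2, rres_rres, rres_rres, hD' i j]
  choose t ht using key
  have ht' : ∀ V hV a i V' (h : V' ≤ V) (hi : V' ≤ W i),
      rres h (t V hV a) = (D i).1 ⟨V', hi⟩ (rres h a) := fun V hV a i V' h hi => by
    have := congrArg (rres (le_inf h hi)) (ht V hV a i)
    rwa [← (D i).2.2.2, rres_rres, rres_rres] at this
  refine ⟨⟨fun V => AddMonoidHom.mk' (t V.1 V.2) fun a b => fun_ext W V.2 _ _ fun i => ?_,
    fun V hV a b => fun_ext W hV _ _ fun i => ?_, fun V hV c => fun_ext W hV _ _ fun i => ?_,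
    fun V V' hV h a => fun_ext W (h.trans hV) _ _ fun i => ?_⟩, fun i => ?_, fun E hE => ?_⟩
  · simp only [map_add, ht]
  · simp only [AddMonoidHom.mk'_apply, map_add, map_mul, ht, (D i).2.1]
  · simp only [AddMonoidHom.mk'_apply, ht, rres_const, (D i).2.2.1, map_zero]
  · simp only [AddMonoidHom.mk'_apply, ht, rres_rres]
    exact (ht' V hV a i _ _ _).symm
  · refine Subtype.ext (funext fun V => AddMonoidHom.ext fun a => ?_)
    have := ht' V.1 (V.2.trans (le_iSup W i)) a i V.1 le_rfl V.2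
    rwa [rres_self, rres_self] at this
  · refine Subtype.ext (funext fun V => AddMonoidHom.ext fun a => fun_ext W V.2 _ _ fun i => ?_)
    rw [AddMonoidHom.mk'_apply, ht, ← hE i, ← E.2.2.2]
    rfl

theorem isSheaf_tangent : (tangentPresheaf f).IsSheaf :=
  (TopCat.Presheaf.isSheaf_iff_isSheafUniqueGluing _).2
    fun _ W D hD => vfields_glue f W D fun i j => hD i j

/-- The tangent sheaf of `Y` over `k`, as a sheaf of abelian groups. -/
noncomputable def tangentSheaf : TopCat.Sheaf AddCommGrpCat.{0} Y :=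
  ⟨tangentPresheaf f, isSheaf_tangent f⟩

end Pool.Agent.Lib.MP_cd184e_ag.B
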