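import Pool.Agent.Lib.MP_cd184e_ag.B.Ring
import Pool.Agent.Lib.MP_cd184e_ag.B.Model
import Pool.Agent.Lib.MP_cd184e_ag.B.Tang

/-! The scheme `Proj` of the homogeneous coordinate ring with its standard affine charts. -/

set_option autoImplicit false

namespace Pool.Agent.Lib.MP_cd184e_ag.B

open CategoryTheory AlgebraicGeometry Opposite TopologicalSpace HomogeneousLocalization
open Pool.Agent.Lib.MP_cd184e_ag.T

variable {k K : Type} [Field k] [Field K] [Algebra k K] (X : ProjVar k K)

theorem card_pos (s : X.Idx) : 0 < s.1.card := s.2.1.card_pos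

/-- The chart of a set of indices. -/
noncomputable def chartOpen (s : X.Idx) : (Proj (grade X)).Opens :=
  Proj.basicOpen (grade X) (prodGen X s.1)

/-- Functions on a chart. -/
noncomputable def secEquiv (s : X.Idx) : Γ(Proj (grade X), chartOpen X s) ≃+* X.A s.1 :=
  (Proj.basicOpenIsoAway (grade X) (prodGen X s.1) (prodGen_mem X s.1)
    (card_pos X s)).commRingCatIsoToRingEquiv.symm.trans (awayEquiv X s)

theorem secEquiv_away (s : X.Idx) (z : Away (grade X) (prodGen X s.1)) :
    secEquiv X s (Proj.awayToSection (grade X) (prodGen X s.1) z) = awayEquiv X s z :=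
  congrArg (awayEquiv X s) ((Proj.basicOpenIsoAway (grade X) (prodGen X s.1) (prodGen_mem X s.1)
    (card_pos X s)).commRingCatIsoToRingEquiv.symm_apply_apply z)

theorem away_surj (s : X.Idx) (a : Γ(Proj (grade X), chartOpen X s)) :
    ∃ z, Proj.awayToSection (grade X) (prodGen X s.1) z = a :=
  (Proj.basicOpenIsoAway (grade X) (prodGen X s.1) (prodGen_mem X s.1)
    (card_pos X s)).commRingCatIsoToRingEquiv.surjective a

theorem chartOpen_anti {s t : X.Idx} (h : s ≤ t) : chartOpen X t ≤ chartOpen X s :=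
  Proj.basicOpen_mono _ _ _ ⟨_, prodGen_eq X h⟩

theorem mem_chartOpen (s : X.Idx) (x : Proj (grade X)) :
    x ∈ chartOpen X s ↔ ∀ j ∈ s.1, gen X j ∉ x.asHomogeneousIdeal.toIdeal := by
  have := x.isPrime
  change prodGen X s.1 ∉ x.asHomogeneousIdeal.toIdeal ↔ _
  rw [prodGen, Ideal.IsPrime.prod_mem_iff]
  simp

theorem exists_chart (x : Proj (grade X)) :
    ∃ j ∈ X.J, gen X j ∉ x.asHomogeneousIdeal.toIdeal := by
  by_contra! H
  have h1 : ⨆ l, Proj.basicOpen (grade X) (gen X l) = ⊤ := by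
    refine Proj.iSup_basicOpen_eq_top' _ _ (fun l => ⟨1, gen_mem X l⟩) ?_
    rw [eq_top_iff]
    intro p _
    have hp : p ∈ Algebra.adjoin k (Set.range (gen X)) := adjoin_gen X ▸ Algebra.mem_top
    induction hp using Algebra.adjoin_induction with
    | mem y hy => exact Algebra.subset_adjoin hy
    | algebraMap c => exact Subalgebra.algebraMap_mem _ (algebraMap k (grade X 0) c)
    | add y z _ _ hy hz => exact add_mem (hy trivial) (hz trivial)
    | mul y z _ _ hy hz => exact mul_mem (hy trivial) (hz trivial)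
  obtain ⟨l, hl⟩ := Opens.mem_iSup.1 (h1.ge (Set.mem_univ x))
  obtain ⟨m, hm⟩ := gen_pow_mem X _ H l
  exact hl (x.isPrime.mem_of_pow_mem m hm)

/-- `Proj` with its charts is a model of `X`. -/
noncomputable def projModel : Model X (Proj (grade X)) where
  U := chartOpen X
  aff s := Proj.isAffineOpen_basicOpen _ _ (prodGen_mem X s.1) (card_pos X s)
  anti := chartOpen_anti X
  e := secEquiv X
  e_res {s t} h a := by
    obtain ⟨z, rfl⟩ := away_surj X s a
    have e := Proj.awayMap_awayToSection (grade X) (prodGen_mem X (t.1 \ s.1)) (prodGen_eq X h)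
    have e' : rres (chartOpen_anti X h) (Proj.awayToSection (grade X) (prodGen X s.1) z) =
        Proj.awayToSection (grade X) (prodGen X t.1)
          (awayMap (grade X) (prodGen_mem X (t.1 \ s.1)) (prodGen_eq X h) z) := congr($e z).symm
    rw [e', secEquiv_away, secEquiv_away]
    apply Subtype.ext
    rw [X.coe_inc, coe_awayEquiv, coe_awayEquiv, toK_awayMap X h]
  basic {s t} h := by
    let i := Proj.awayι (grade X) (prodGen X s.1) (prodGen_mem X s.1) (card_pos X s)
    have hr : i.opensRange = chartOpen X s := Proj.opensRange_awayι _ _ _ _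
    have h1 : i ⁻¹ᵁ chartOpen X t = _ := (Proj.awayι_preimage_basicOpen (grade X)
      (prodGen_mem X s.1) (card_pos X s) (prodGen_mem X t.1) (card_pos X t)).trans
      (basicOpen_eq_of_affine (R := .of (Away (grade X) (prodGen X s.1))) _).symm
    have h2 : i ''ᵁ (i ⁻¹ᵁ chartOpen X t) = chartOpen X t := by
      rw [Scheme.Hom.image_preimage_eq_opensRange_inf, hr, inf_eq_right]
      exact chartOpen_anti X h
    rw [h1, Scheme.image_basicOpen] at h2
    have h3 : chartOpen X s ≤ i ''ᵁ ⊤ := by rw [Scheme.Hom.image_top_eq_opensRange, hr]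
    exact ⟨rres h3 _, ((Scheme.basicOpen_res _ _ _).trans ((congrArg (chartOpen X s ⊓ ·) h2).trans
      (inf_eq_right.2 (chartOpen_anti X h)))).symm⟩
  inf s t x hx := by
    have h1 := (mem_chartOpen X s x).1 hx.1
    have h2 := (mem_chartOpen X t x).1 hx.2
    exact (mem_chartOpen X _ x).2 fun j hj => (Finset.mem_union.1 hj).elim (h1 j) (h2 j)
  cover := by
    rw [eq_top_iff]
    intro x _
    obtain ⟨j, hj, hx⟩ := exists_chart X x
    exact Opens.mem_iSup.2 ⟨⟨{j}, Finset.singleton_nonempty j, Finset.singleton_subset_iff.2 hj⟩,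
      (mem_chartOpen X _ x).2 fun l hl => Finset.mem_singleton.1 hl ▸ hx⟩

theorem const_away {S : Type} [CommRing S] [Algebra k S] (𝒜 : ℕ → Submodule k S)
    [GradedAlgebra 𝒜] {g : S} {m : ℕ} (hg : g ∈ 𝒜 m) (hm : 0 < m) (c : k) :
    const (strMap 𝒜) (Proj.basicOpen 𝒜 g) c =
      Proj.awayToSection 𝒜 g (fromZeroRingHom 𝒜 _ (algebraMap k (𝒜 0) c)) := by
  have h1 : (Proj.basicOpen 𝒜 g).ι ≫ strMap 𝒜 = Proj.basicOpenToSpec 𝒜 g ≫
      Spec.map (CommRingCat.ofHom (fromZeroRingHom 𝒜 _)) ≫
        Spec.map (CommRingCat.ofHom (algebraMap k (𝒜 0))) := by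
    rw [← Proj.awayι_toSpecZero_assoc 𝒜 g hg hm, ← Proj.basicOpenIsoSpec_inv_ι_assoc,
      ← Proj.basicOpenIsoSpec_hom 𝒜 g hg hm, Iso.hom_inv_id_assoc, strMap]
  have h2 := congrArg (fun φ => (Scheme.ΓSpecIso (.of k)).inv ≫ Scheme.Hom.appTop φ ≫
    (Proj.basicOpen 𝒜 g).topIso.hom) h1
  have h3 : (Proj.basicOpenToSpec 𝒜 g).appTop = _ := Proj.basicOpenToSpec_app_top 𝒜 g
  simp only [Scheme.Hom.comp_appTop, h3, Category.assoc, Iso.inv_hom_id, Category.comp_id,
    Scheme.ΓSpecIso_naturality_assoc, Iso.inv_hom_id_assoc] at h2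
  refine Eq.trans ?_ congr($h2 c)
  exact (rres_rres (le_top : (Proj.basicOpen 𝒜 g).ι ''ᵁ ⊤ ≤ ⊤)
    (Proj.basicOpen 𝒜 g).ι_image_top.ge _).symm

theorem secEquiv_const (s : X.Idx) (c : k) :
    secEquiv X s (const (strMap (grade X)) (chartOpen X s) c) = algebraMap k _ c := by
  refine (congrArg (secEquiv X s)
    (const_away (grade X) (prodGen_mem X s.1) (card_pos X s) c)).trans ?_
  rw [secEquiv_away]
  exact Subtype.ext (toK_const X s c)

end Pool.Agent.Lib.MP_cd184e_ag.B
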