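import Pool.Agent.Lib.MP_cd184e_ag.B.Model
import Pool.Agent.Lib.MP_cd184e_ag.B.Tang

/-! A scheme with a model is integral, and smooth when the rings of the charts are. -/

set_option autoImplicit false

namespace Pool.Agent.Lib.MP_cd184e_ag.B

open CategoryTheory AlgebraicGeometry Opposite TopologicalSpace
open Pool.Agent.Lib.MP_cd184e_ag.T

variable {k K : Type} [Field k] [Field K] [Algebra k K]

/-- A single chart. -/
def one {X : ProjVar k K} (j : X.J) : X.Idx :=
  ⟨{j.1}, Finset.singleton_nonempty _, Finset.singleton_subset_iff.2 j.2⟩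

namespace Model

variable {X : ProjVar k K} {Y : Scheme.{0}} (𝓜 : Model X Y)

theorem cover_one : ⨆ j : X.J, 𝓜.U (one j) = ⊤ := by
  rw [eq_top_iff, ← 𝓜.cover, iSup_le_iff]
  intro s
  obtain ⟨j, hj⟩ := s.2.1
  exact (𝓜.anti (s := one ⟨j, s.2.2 hj⟩) (Finset.singleton_subset_iff.2 hj)).trans
    (le_iSup (fun j : X.J => 𝓜.U (one j)) _)

theorem integral_chart (s : X.Idx) : IsIntegral (𝓜.U s).toScheme :=
  have : IsDomain Γ(Y, 𝓜.U s) := (𝓜.e s).toMulEquiv.isDomain _
  IsIntegral.of_isIso (𝓜.aff s).isoSpec.inv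

theorem nonempty (s : X.Idx) : (𝓜.U s : Set Y).Nonempty := by
  have := 𝓜.integral_chart s
  obtain ⟨x⟩ : Nonempty (𝓜.U s).toScheme := inferInstance
  exact ⟨x.1, x.2⟩

include 𝓜 in
theorem isIntegral : IsIntegral Y := by
  have h1 : ∀ i, IsReduced ((Y.openCoverOfIsOpenCover 𝓜.U 𝓜.cover).X i) := fun i =>
    have := 𝓜.integral_chart i
    inferInstanceAs (IsReduced (𝓜.U i).toScheme)
  have := IsReduced.of_openCover Y (Y.openCoverOfIsOpenCover 𝓜.U 𝓜.cover)
  have : PreirreducibleSpace Y := by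
    refine PreirreducibleSpace.of_isOpenCover (U := 𝓜.U) (fun s t _ hd => ?_) 𝓜.cover fun s => ?_
    · obtain ⟨x, hx⟩ := 𝓜.nonempty (un s t)
      exact hd (𝓜.anti (le_un_left s t)) (𝓜.anti (le_un_right s t)) hx
    · have := 𝓜.integral_chart s
      exact inferInstanceAs (PreirreducibleSpace (𝓜.U s).toScheme)
  obtain ⟨j, hj⟩ := X.nonempty
  obtain ⟨x, -⟩ := 𝓜.nonempty (one ⟨j, hj⟩)
  have : IrreducibleSpace Y := { toNonempty := ⟨x⟩ }
  exact isIntegral_of_irreducibleSpace_of_isReduced Y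

theorem smooth (f : Y ⟶ Spec (.of k))
    (hc : ∀ s c, 𝓜.e s (const f (𝓜.U s) c) = algebraMap k _ c)
    (h : ∀ j ∈ X.J, Algebra.Smooth k (X.A {j})) : Smooth f := by
  refine HasRingHomProperty.of_iSup_eq_top (P := @Smooth)
    (fun j : X.J => ⟨𝓜.U (one j), 𝓜.aff _⟩) 𝓜.cover_one fun j => ?_
  have e : (f.appLE ⊤ (𝓜.U (one j)) le_top).hom =
      ((𝓜.e (one j)).symm.toRingHom.comp (algebraMap k _)).comp
        (Scheme.ΓSpecIso (.of k)).hom.hom := by
    ext a
    obtain ⟨c, rfl⟩ := (Scheme.ΓSpecIso (.of k)).commRingCatIsoToRingEquiv.symm.surjective a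
    have h1 : (Scheme.ΓSpecIso (.of k)).hom.hom
        ((Scheme.ΓSpecIso (.of k)).commRingCatIsoToRingEquiv.symm c) = c :=
      (Scheme.ΓSpecIso (.of k)).commRingCatIsoToRingEquiv.apply_symm_apply c
    rw [RingHom.comp_apply, h1, RingHom.comp_apply, ← hc]
    exact ((𝓜.e (one j)).symm_apply_apply _).symm
  rw [e]
  exact (RingHom.Smooth.of_bijective
    (Scheme.ΓSpecIso (.of k)).commRingCatIsoToRingEquiv.bijective).comp
    ((RingHom.smooth_algebraMap.2 (h j.1 j.2)).comp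
      (RingHom.Smooth.of_bijective (𝓜.e (one j)).symm.bijective))

end Model

end Pool.Agent.Lib.MP_cd184e_ag.B
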