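import Pool.Agent.Lib.MP_cd184e_ag.B.Gen
import Pool.Agent.Lib.MP_cd184e_ag.B.Geom

/-! The first cohomology of the tangent sheaf of a scheme with a model. -/

set_option autoImplicit false

namespace Pool.Agent.Lib.MP_cd184e_ag.B

open CategoryTheory AlgebraicGeometry Opposite TopologicalSpace
open Pool.Agent.Lib.MP_cd184e_ag.T

variable {k K : Type} [Field k] [Field K] [Algebra k K]

theorem A_union (X : ProjVar k K) (s t : Finset (Fin X.n)) : X.A (s ∪ t) = X.A s ⊔ X.A t := by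
  rw [ProjVar.A, ProjVar.A, ProjVar.A, ← Algebra.adjoin_union]
  congr 1
  ext x
  simp only [Finset.mem_union, Set.mem_ofPred_eq, Set.mem_union]
  constructor
  · rintro ⟨l, j, hj | hj, e⟩
    exacts [Or.inl ⟨l, j, hj, e⟩, Or.inr ⟨l, j, hj, e⟩]
  · rintro (⟨l, j, hj, e⟩ | ⟨l, j, hj, e⟩)
    exacts [⟨l, j, Or.inl hj, e⟩, ⟨l, j, Or.inr hj, e⟩]

namespace Model

variable {X : ProjVar k K} {Y : Scheme.{0}} (𝓜 : Model X Y)

theorem inf_eq (s t : X.Idx) : 𝓜.U s ⊓ 𝓜.U t = 𝓜.U (un s t) :=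
  le_antisymm (𝓜.inf s t) (le_inf (𝓜.anti (le_un_left s t)) (𝓜.anti (le_un_right s t)))

theorem exists_gen (f : Y ⟶ Spec (.of k))
    (hc : ∀ s c, 𝓜.e s (const f (𝓜.U s) c) = algebraMap k _ c) (s₀ : X.Idx)
    (hK : IsFractionRing (X.A s₀.1) K) :
    ∃ G : Gen f K, ∀ s a, G.γ _ (𝓜.nonempty s) a = 𝓜.e s a := by
  have := 𝓜.isIntegral
  have mem : ∀ V : Y.Opens, (V : Set Y).Nonempty → genericPoint Y ∈ V := fun V hV =>
    ((genericPoint_spec Y).mem_open_set_iff V.isOpen).2 (by simpa using hV)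
  have : Nonempty (𝓜.U s₀) := (𝓜.nonempty s₀).to_subtype
  have := functionField_isFractionRing_of_isAffineOpen Y _ (𝓜.aff s₀)
  let φ : Y.functionField ≃+* K := IsFractionRing.ringEquivOfRingEquiv (𝓜.e s₀)
  let γ : ∀ V : Y.Opens, (V : Set Y).Nonempty → Γ(Y, V) →+* K := fun V hV =>
    φ.toRingHom.comp (Y.presheaf.germ V _ (mem V hV)).hom
  have res : ∀ {V W : Y.Opens} (i : V ≤ W) hV hW a, γ V hV (rres i a) = γ W hW a :=
    fun i hV hW a => congrArg φ (Y.presheaf.germ_res_apply (homOfLE i) _ (mem _ hV) a)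
  have h0 : ∀ a, γ _ (𝓜.nonempty s₀) a = 𝓜.e s₀ a := fun a =>
    IsFractionRing.ringEquivOfRingEquiv_algebraMap (𝓜.e s₀) a
  have inter : ∀ {V W : Y.Opens}, (V : Set Y).Nonempty → (W : Set Y).Nonempty →
    ((V ⊓ W : Y.Opens) : Set Y).Nonempty := fun hV hW => ⟨_, mem _ hV, mem _ hW⟩
  refine ⟨⟨γ, fun V h => φ.injective.comp (germ_injective_of_isIntegral Y _ (mem V h)), res,
    fun V h c => ?_, fun x => ?_, inter⟩, fun s a => ?_⟩
  · have h1 := inter h (𝓜.nonempty s₀)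
    rw [← res inf_le_left h1 h, rres_const, ← rres_const f (inf_le_right : V ⊓ 𝓜.U s₀ ≤ _),
      res _ h1 (𝓜.nonempty s₀), h0, hc]
    rfl
  · obtain ⟨V, hV, a, e⟩ := Y.presheaf.exists_germ_eq (φ.symm x)
    exact ⟨V, ⟨_, hV⟩, a, (congrArg φ e).trans (φ.apply_symm_apply x)⟩
  · change γ _ (𝓜.nonempty s) a = _
    have h1 : ∀ b : X.A s₀.1, γ _ (𝓜.nonempty (un s s₀))
        ((𝓜.e _).symm (X.inc (le_un_right s s₀) b)) = b := fun b => by
      rw [symm_inc, res _ (𝓜.nonempty _) (𝓜.nonempty s₀), h0, RingEquiv.apply_symm_apply]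
    obtain ⟨u, b, hu, e⟩ := X.exists_denominator (le_un_right s s₀)
      (X.inc (le_un_left s s₀) (𝓜.e s a))
    have e1 := congrArg (fun z => γ _ (𝓜.nonempty (un s s₀)) ((𝓜.e _).symm z)) e
    have e2 : (u : K) * 𝓜.e s a = b := by
      simpa only [MulMemClass.coe_mul, X.coe_inc] using congrArg Subtype.val e
    have hu' : (u : K) ≠ 0 := X.coe_inc (le_un_right s s₀) u ▸ (hu.map (X.A _).val).ne_zero
    simp only [map_mul, h1] at e1
    rw [symm_inc, res _ (𝓜.nonempty _) (𝓜.nonempty s), RingEquiv.symm_apply_apply, ← e2] at e1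
    exact mul_left_cancel₀ hu' e1

theorem nontrivial_H1 (f : Y ⟶ Spec (.of k))
    (hc : ∀ s c, 𝓜.e s (const f (𝓜.U s) c) = algebraMap k _ c)
    (hK : ∀ j ∈ X.J, IsFractionRing (X.A {j}) K)
    (h : ¬ H1 tang fun j : X.J => X.A {j.1}) : Nontrivial (Sheaf.H (tangentSheaf f) 1) := by
  by_contra hn
  rw [not_nontrivial_iff_subsingleton] at hn
  obtain ⟨j, hj⟩ := X.nonempty
  obtain ⟨G, hG⟩ := 𝓜.exists_gen f hc (one ⟨j, hj⟩) (hK j hj)
  have hA : ∀ s x, x ∈ X.A s.1 ↔ ∃ a, G.γ _ (𝓜.nonempty s) a = x := fun s x =>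
    ⟨fun hx => ⟨(𝓜.e s).symm ⟨x, hx⟩, by rw [hG, RingEquiv.apply_symm_apply]⟩,
      fun ⟨a, e⟩ => e ▸ hG s a ▸ (𝓜.e s a).2⟩
  refine h (G.h1_of_subsingleton ⟨j, hj⟩ (fun i => 𝓜.U (one i)) 𝓜.cover_one
    (fun i => 𝓜.nonempty _) (fun i l => 𝓜.inf_eq (one i) (one l) ▸ 𝓜.aff _) _
    (fun i => hA (one i)) fun i l x => ?_)
  rw [← A_union]
  refine (hA (un (one i) (one l)) x).trans ⟨fun ⟨a, e⟩ => ?_, fun ⟨a, e⟩ => ?_⟩
  · exact ⟨rres (𝓜.inf_eq _ _).le a, (G.res _ _ _ _).trans e⟩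
  · exact ⟨rres (𝓜.inf_eq _ _).ge a, (G.res _ _ _ _).trans e⟩

end Model

end Pool.Agent.Lib.MP_cd184e_ag.B
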