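import Mathlib

/-! Sections of a sheaf of modules over an affine open and its basic opens. -/

set_option autoImplicit false

namespace Pool.Agent.Lib.MP_cd184e_ag.B

open CategoryTheory AlgebraicGeometry Opposite TopologicalSpace

variable {X : Scheme.{0}}

/-- Restriction of functions. -/
noncomputable def rres {U V : X.Opens} (h : V ≤ U) : Γ(X, U) →+* Γ(X, V) :=
  (X.presheaf.map (homOfLE h).op).hom

/-- Restriction of sections of a module. -/
noncomputable def mres (M : X.Modules) {U V : X.Opens} (h : V ≤ U) : Γ(M, U) →+ Γ(M, V) :=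
  (M.presheaf.map (homOfLE h).op).hom

theorem rres_def {U V : X.Opens} (h : V ≤ U) (r : Γ(X, U)) :
    rres h r = X.presheaf.map (homOfLE h).op r := rfl

theorem mres_def (M : X.Modules) {U V : X.Opens} (h : V ≤ U) (s : Γ(M, U)) :
    mres M h s = M.presheaf.map (homOfLE h).op s := rfl

@[simp] theorem rres_rres {U V W : X.Opens} (h : V ≤ U) (h' : W ≤ V) (r : Γ(X, U)) :
    rres h' (rres h r) = rres (h'.trans h) r := by
  simp only [rres_def, ← ConcreteCategory.comp_apply, ← Functor.map_comp]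
  rfl

@[simp] theorem mres_mres (M : X.Modules) {U V W : X.Opens} (h : V ≤ U) (h' : W ≤ V)
    (s : Γ(M, U)) : mres M h' (mres M h s) = mres M (h'.trans h) s := by
  simp only [mres_def, ← ConcreteCategory.comp_apply, ← Functor.map_comp]
  rfl

@[simp] theorem rres_self {U : X.Opens} (h : U ≤ U) (r : Γ(X, U)) : rres h r = r := by
  have : (homOfLE h).op = 𝟙 (op U) := rfl
  rw [rres_def, this, CategoryTheory.Functor.map_id]
  rfl

@[simp] theorem mres_self (M : X.Modules) {U : X.Opens} (h : U ≤ U) (s : Γ(M, U)) :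
    mres M h s = s := by
  have : (homOfLE h).op = 𝟙 (op U) := rfl
  rw [mres_def, this, CategoryTheory.Functor.map_id]
  rfl

@[simp] theorem mres_smul (M : X.Modules) {U V : X.Opens} (h : V ≤ U) (r : Γ(X, U))
    (s : Γ(M, U)) : mres M h (r • s) = rres h r • mres M h s :=
  Scheme.Modules.map_smul M (homOfLE h) r s

theorem mres_app {M N : X.Modules} (φ : M ⟶ N) {U V : X.Opens} (h : V ≤ U) (s : Γ(M, U)) :
    mres N h (φ.app U s) = φ.app V (mres M h s) := by
  have := φ.mapPresheaf.naturality (homOfLE h).op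
  exact (congr($this s)).symm

/-- Two sections that agree near every point agree. -/
theorem sec_ext (M : X.Modules) {U : X.Opens} (s t : Γ(M, U))
    (h : ∀ x ∈ U, ∃ (V : X.Opens) (hV : V ≤ U), x ∈ V ∧ mres M hV s = mres M hV t) : s = t :=
  TopCat.Presheaf.IsSheaf.section_ext M.isSheaf h

/-- Gluing of sections. -/
theorem sec_glue (M : X.Modules) {ι : Type} {U : X.Opens} (V : ι → X.Opens) (hV : ∀ i, V i ≤ U)
    (hc : U ≤ iSup V) (s : ∀ i, Γ(M, V i))
    (hs : ∀ i j, mres M (inf_le_left : V i ⊓ V j ≤ V i) (s i) =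
      mres M (inf_le_right : V i ⊓ V j ≤ V j) (s j)) :
    ∃ t : Γ(M, U), ∀ i, mres M (hV i) t = s i := by
  obtain ⟨t, ht, -⟩ := TopCat.Sheaf.existsUnique_gluing' (⟨M.presheaf, M.isSheaf⟩ :
    TopCat.Sheaf Ab X) V U (fun i => homOfLE (hV i)) hc s hs
  exact ⟨t, ht⟩

/-- The sections of `M` over the basic opens of `U` are the localisations of `Γ(M, U)`. -/
structure LocAt (M : X.Modules) (U : X.Opens) : Prop where
  ex : ∀ (f : Γ(X, U)) (W : X.Opens) (h : W ≤ U), W = X.basicOpen f → ∀ s : Γ(M, W),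
    ∃ (n : ℕ) (t : Γ(M, U)), mres M h t = rres h f ^ n • s
  un : ∀ (f : Γ(X, U)) (W : X.Opens) (h : W ≤ U), W = X.basicOpen f → ∀ t : Γ(M, U),
    mres M h t = 0 → ∃ n : ℕ, f ^ n • t = 0

theorem isUnit_rres {U W : X.Opens} (f : Γ(X, U)) (h : W ≤ U) (hW : W ≤ X.basicOpen f) :
    IsUnit (rres h f) := by
  have := (X.toRingedSpace.isUnit_res_basicOpen f).map (rres hW)
  have e : rres hW (rres (X.basicOpen_le f) f) = rres h f := rres_rres _ _ _
  rw [← e]
  exact this

end Pool.Agent.Lib.MP_cd184e_ag.B
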