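import Pool.Agent.Lib.MP_cd184e_ag.B.Model

/-! Every descent datum on the affine cover comes from a coherent sheaf. -/

set_option autoImplicit false

namespace Pool.Agent.Lib.MP_cd184e_ag.B

open CategoryTheory AlgebraicGeometry Opposite TopologicalSpace Limits
open Pool.Agent.Lib.MP_cd184e_ag.T

variable {k K : Type} [Field k] [Field K] [Algebra k K]

namespace Model

variable {X : ProjVar k K} {Y : Scheme.{0}} (𝓜 : Model X Y) (N : Coh X)

/-- A sheaf concentrated on the chart `s` whose sections over the chart are `N s`. -/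
structure Piece (s : X.Idx) where
  P : Y.Modules
  ι : N.obj s ≃+ Γ(P, 𝓜.U s)
  ι_smul : ∀ (a : Γ(Y, 𝓜.U s)) (x : N.obj s), ι (𝓜.e s a • x) = a • ι x
  loc : LocAt P (𝓜.U s)
  conc : Conc P (𝓜.U s)

theorem nonempty_piece (s : X.Idx) : Nonempty (𝓜.Piece N s) := by
  let := Module.compHom (N.obj s) (𝓜.e s).toRingHom
  obtain ⟨P, ⟨ι⟩, h₁, h₂⟩ := exists_push (𝓜.aff s) (N.obj s)
  exact ⟨⟨P, ι.toAddEquiv, fun a x => ι.map_smul a x, h₁, h₂⟩⟩

variable {𝓜 N}

/-- The characteristic property of the transition morphisms. -/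
def IsTrans {s t : X.Idx} (h : s ≤ t) (p : 𝓜.Piece N s) (q : 𝓜.Piece N t) (ρ : p.P ⟶ q.P) :
    Prop :=
  ∀ x, mres q.P (𝓜.anti h) (ρ.app (𝓜.U s) (p.ι x)) = q.ι (N.res h x)

theorem bij_res {s t : X.Idx} (h : s ≤ t) (q : 𝓜.Piece N t) :
    Function.Bijective (mres q.P (𝓜.anti h)) := q.conc.bij _ inf_le_right

theorem exists_trans {s t : X.Idx} (h : s ≤ t) (p : 𝓜.Piece N s) (q : 𝓜.Piece N t) :
    ∃ ρ, IsTrans h p q ρ := by
  choose f hf using fun y => (bij_res h q).2 (q.ι (N.res h (p.ι.symm y)))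
  let φ : Γ(p.P, 𝓜.U s) →ₗ[Γ(Y, 𝓜.U s)] Γ(q.P, 𝓜.U s) :=
    { toFun := f
      map_add' := fun x y => (bij_res h q).1 (by simp only [map_add, hf])
      map_smul' := fun a x => (bij_res h q).1 (by
        obtain ⟨x, rfl⟩ := p.ι.surjective x
        rw [RingHom.id_apply, mres_smul, hf, hf, ← p.ι_smul, p.ι.symm_apply_apply,
          p.ι.symm_apply_apply, N.res_smul, ← 𝓜.e_res, q.ι_smul]) }
  obtain ⟨ρ, hρ⟩ := exists_hom (U := fun _ : Unit => 𝓜.U s) (φ := fun _ => φ)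
    (fun _ => 𝓜.aff s) (fun _ => p.loc) (q.conc.mono ((𝓜.anti h).trans (le_iSup_of_le () le_rfl)))
    fun _ _ => ⟨(), le_rfl, le_rfl, inf_le_left, fun m => by simp, fun m => by simp⟩
  refine ⟨ρ, fun x => ?_⟩
  rw [hρ ()]
  exact (hf _).trans (by rw [p.ι.symm_apply_apply])

theorem IsTrans.unique {s t : X.Idx} {h : s ≤ t} {p : 𝓜.Piece N s} {q : 𝓜.Piece N t}
    {ρ ρ' : p.P ⟶ q.P} (H : IsTrans h p q ρ) (H' : IsTrans h p q ρ') : ρ = ρ' := by
  refine hom_ext_of_loc (fun _ : Unit => 𝓜.U s) (fun _ => 𝓜.aff s) (fun _ => p.loc)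
    (q.conc.mono ((𝓜.anti h).trans (le_iSup_of_le () le_rfl))) _ _ fun _ m => ?_
  obtain ⟨x, rfl⟩ := p.ι.surjective m
  exact (bij_res h q).1 ((H x).trans (H' x).symm)

theorem isTrans_id {s : X.Idx} (p : 𝓜.Piece N s) : IsTrans le_rfl p p (𝟙 _) := fun x => by
  rw [N.res_refl, mres_self]
  rfl

theorem IsTrans.comp {s t u : X.Idx} {h : s ≤ t} {h' : t ≤ u} {p : 𝓜.Piece N s}
    {q : 𝓜.Piece N t} {r : 𝓜.Piece N u} {ρ : p.P ⟶ q.P} {ρ' : q.P ⟶ r.P} (H : IsTrans h p q ρ)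
    (H' : IsTrans h' q r ρ') : IsTrans (h.trans h') p r (ρ ≫ ρ') := fun x => by
  change mres _ _ (ρ'.app _ (ρ.app _ _)) = _
  rw [← mres_mres _ (𝓜.anti h) (𝓜.anti h'), mres_app, H, H', N.res_res]

theorem IsTrans.bij_basic {s t : X.Idx} {h : s ≤ t} {p : 𝓜.Piece N s} {q : 𝓜.Piece N t}
    {ρ : p.P ⟶ q.P} (H : IsTrans h p q ρ) (g : Γ(Y, 𝓜.U t)) :
    Function.Bijective (ρ.app (Y.basicOpen g)) := by
  have ht : Y.basicOpen g ≤ 𝓜.U t := Y.basicOpen_le g
  have hs : Y.basicOpen g ≤ 𝓜.U s := ht.trans (𝓜.anti h)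
  have key : ∀ x, ρ.app _ (mres p.P hs (p.ι x)) = mres q.P ht (q.ι (N.res h x)) := fun x => by
    rw [← mres_app, ← H, mres_mres]
  have unit : ∀ a : X.A s.1, IsUnit (X.inc h a) → IsUnit (rres hs ((𝓜.e s).symm a)) :=
    fun a ha => by
      rw [← rres_rres (𝓜.anti h) ht, ← 𝓜.symm_inc]
      exact (ha.map (𝓜.e t).symm).map _
  have smul : ∀ (a : X.A s.1) (x : N.obj s), p.ι (a • x) = (𝓜.e s).symm a • p.ι x :=
    fun a x => by rw [← p.ι_smul, RingEquiv.apply_symm_apply]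
  constructor
  · rw [injective_iff_map_eq_zero]
    intro z hz
    obtain ⟨f, hf⟩ := 𝓜.basic h
    obtain ⟨g', hg'⟩ := (𝓜.aff s).basicOpen_basicOpen_is_basicOpen f
      (rres hf.ge g)
    have e : Y.basicOpen g = Y.basicOpen g' := by
      rw [hg', rres_def, Scheme.basicOpen_res, ← hf, inf_eq_right.2 ht]
    obtain ⟨n, y, hy⟩ := p.loc.ex g' _ hs e z
    obtain ⟨x, rfl⟩ := p.ι.surjective y
    have h0 : mres q.P ht (q.ι (N.res h x)) = 0 := by
      rw [← key, hy, Scheme.Modules.Hom.app_smul, hz, smul_zero]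
    obtain ⟨l, hl⟩ := q.loc.un g _ ht rfl _ h0
    rw [← q.ι_smul, map_eq_zero_iff _ q.ι.injective] at hl
    obtain ⟨a, b, ha, hab⟩ := X.exists_denominator h (𝓜.e t (g ^ l))
    obtain ⟨c, hc, hcx⟩ := N.inj h (b • x) (by rw [N.res_smul, ← hab, mul_smul, hl, smul_zero])
    have hb : IsUnit (rres hs ((𝓜.e s).symm b)) := by
      rw [← rres_rres (𝓜.anti h) ht, ← 𝓜.symm_inc h, ← hab, map_mul, map_mul,
        RingEquiv.symm_apply_apply, map_pow]
      exact ((ha.map (𝓜.e t).symm).map _).mul ((isUnit_rres g ht le_rfl).pow l)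
    have h1 := congrArg (fun w => mres p.P hs (p.ι w)) hcx
    simp only [smul, mres_smul, map_zero, hy] at h1
    refine smul_cancel ((unit c hc).mul (hb.mul ((isUnit_rres g' hs e.le).pow n))) ?_
    rw [mul_smul, mul_smul, h1, smul_zero]
  · intro z
    obtain ⟨n, y, hy⟩ := q.loc.ex g _ ht rfl z
    obtain ⟨y, rfl⟩ := q.ι.surjective y
    obtain ⟨a, x, ha, hx⟩ := N.surj h y
    have hu := (unit a ha).mul ((isUnit_rres g ht le_rfl).pow n)
    obtain ⟨w, hw⟩ := exists_smul_eq hu (mres p.P hs (p.ι x))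
    refine ⟨w, smul_cancel hu ?_⟩
    rw [← Scheme.Modules.Hom.app_smul, hw, key, ← hx, mul_smul, ← hy,
      ← (𝓜.e t).apply_symm_apply (X.inc h a), q.ι_smul, mres_smul, 𝓜.symm_inc, rres_rres]

theorem IsTrans.bij {s t : X.Idx} {p : 𝓜.Piece N s} {q : 𝓜.Piece N (un s t)}
    {ρ : p.P ⟶ q.P} (H : IsTrans (le_un_left s t) p q ρ) {W : Y.Opens} (g : Γ(Y, 𝓜.U t))
    (hW : W = Y.basicOpen g) : Function.Bijective (ρ.app W) := by
  let g' := rres (𝓜.anti (le_un_right s t)) g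
  have e : Y.basicOpen g' = 𝓜.U (un s t) ⊓ W := by
    rw [hW]
    exact Scheme.basicOpen_res _ _ _
  have hle : Y.basicOpen g' ≤ W := e.le.trans inf_le_right
  have h1 : Function.Bijective (mres p.P hle) := p.conc.bij _ (by
    rw [e]
    exact le_inf ((le_inf inf_le_right (inf_le_left.trans (hW.le.trans (Y.basicOpen_le g)))).trans
      (𝓜.inf s t)) inf_le_left)
  have h2 : Function.Bijective (mres q.P hle) := q.conc.bij _ (by rw [e, inf_comm])
  have h3 : mres q.P hle ∘ ρ.app W = ρ.app _ ∘ mres p.P hle := funext fun x => mres_app ρ hle x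
  have h4 := (H.bij_basic g').comp h1
  rw [← h3] at h4
  exact (Function.Bijective.of_comp_iff' h2 _).1 h4

variable (𝓜 N)

theorem exists_sheaf : ∃ (M : Y.Modules) (p : ∀ s, 𝓜.Piece N s) (π : ∀ s, M ⟶ (p s).P),
    (∀ s (W : Y.Opens) (g : Γ(Y, 𝓜.U s)), W = Y.basicOpen g → Function.Bijective ((π s).app W)) ∧
    ∀ s t (h : s ≤ t), ∃ ρ, IsTrans h (p s) (p t) ρ ∧ π s ≫ ρ = π t := by
  have p : ∀ s, 𝓜.Piece N s := fun s => (𝓜.nonempty_piece N s).some
  choose ρ hρ using fun (s t : X.Idx) (h : s ≤ t) => exists_trans h (p s) (p t)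
  have comp : ∀ (s t u : X.Idx) (h : s ≤ t) (h' : t ≤ u),
      ρ s t h ≫ ρ t u h' = ρ s u (h.trans h') := fun s t u h h' =>
    ((hρ s t h).comp (hρ t u h')).unique (hρ _ _ _)
  have comp' : ∀ (s t u : X.Idx) (h : s ≤ t) (h' : t ≤ u) (W : Y.Opens) (x : Γ((p s).P, W)),
      (ρ t u h').app W ((ρ s t h).app W x) = (ρ s u (h.trans h')).app W x :=
    fun s t u h h' W x => by rw [← comp s t u h h']; rfl
  let F : X.Idx ⥤ Y.Modules :=
    { obj := fun s => (p s).P
      map := fun {s t} i => ρ s t i.le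
      map_id := fun s => (hρ s s le_rfl).unique (isTrans_id _)
      map_comp := fun i j => (comp _ _ _ i.le j.le).symm }
  have hw : ∀ s t (h : s ≤ t), limit.π F s ≫ ρ s t h = limit.π F t := fun s t h =>
    limit.w F (homOfLE h)
  refine ⟨limit F, p, limit.π F, fun s W g hW => ?_, fun s t h => ⟨_, hρ s t h, hw s t h⟩⟩
  have hw' : ∀ s t (h : s ≤ t) (x : Γ(limit F, W)),
      (ρ s t h).app W ((limit.π F s).app W x) = (limit.π F t).app W x := fun s t h x => by
    rw [← hw s t h]; rfl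
  have hb : ∀ t, Function.Bijective ((ρ t (un t s) (le_un_left t s)).app W) := fun t =>
    (hρ _ _ _).bij g hW
  obtain ⟨hi, hs⟩ := limit_sections F W
  constructor
  · intro x y e
    refine hi x y fun t => (hb t).1 ?_
    rw [hw', hw', ← hw' s _ (le_un_right t s), ← hw' s _ (le_un_right t s), e]
  · intro z
    choose q hq using fun t => (hb t).2 ((ρ s (un t s) (le_un_right t s)).app W z)
    obtain ⟨x, hx⟩ := hs q fun {t u} i => (hb u).1 (by
      have h : un t s ≤ un u s := un_le (i.le.trans (le_un_left u s)) (le_un_right u s)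
      change (ρ u _ _).app W ((ρ t u i.le).app W (q t)) = _
      rw [comp', hq, ← comp' t (un t s) _ (le_un_left t s) h, hq, comp'])
    exact ⟨x, (hb s).1 (by rw [hx, hq])⟩

theorem essSurj : 𝓜.sec.EssSurj where
  mem_essImage N := by
    obtain ⟨M, p, π, hb, hρ⟩ := 𝓜.exists_sheaf N
    have hb1 : ∀ s, Function.Bijective ((π s).app (𝓜.U s)) := fun s =>
      hb s _ 1 (Y.basicOpen_one).symm
    have hL : ∀ s, LocAt M (𝓜.U s) := fun s =>
      ⟨fun f W h e z => by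
        obtain ⟨n, t, ht⟩ := (p s).loc.ex f W h e ((π s).app W z)
        obtain ⟨t, rfl⟩ := (hb1 s).2 t
        refine ⟨n, t, (hb s W f e).1 ?_⟩
        rw [← mres_app, ht, Scheme.Modules.Hom.app_smul],
      fun f W h e t ht => by
        obtain ⟨n, hn⟩ := (p s).loc.un f W h e ((π s).app _ t) (by rw [mres_app, ht, map_zero])
        refine ⟨n, (hb1 s).1 ?_⟩
        rw [Scheme.Modules.Hom.app_smul, hn, map_zero]⟩
    let ε : ∀ s, Γ(M, 𝓜.U s) ≃+ N.obj s := fun s =>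
      (AddEquiv.ofBijective ((π s).app (𝓜.U s)).hom (hb1 s)).trans (p s).ι.symm
    have hε : ∀ s x, (p s).ι (ε s x) = (π s).app _ x := fun s x => (p s).ι.apply_symm_apply _
    have ε_smul : ∀ s (a : Γ(Y, 𝓜.U s)) x, ε s (a • x) = 𝓜.e s a • ε s x := fun s a x =>
      (p s).ι.injective (by rw [(p s).ι_smul, hε, hε, Scheme.Modules.Hom.app_smul])
    have ε_res : ∀ s t (h : s ≤ t) x, ε t (mres M (𝓜.anti h) x) = N.res h (ε s x) :=
      fun s t h x => (p t).ι.injective (by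
        obtain ⟨ρ, H, e⟩ := hρ s t h
        rw [← H, hε, hε, ← mres_app, ← e]
        rfl)
    have hF : ∀ s, Module.Finite Γ(Y, 𝓜.U s) Γ(M, 𝓜.U s) := fun s => by
      let := Module.compHom (N.obj s) (𝓜.e s).toRingHom
      have : Module.Finite Γ(Y, 𝓜.U s) (N.obj s) :=
        finite_compHom _ (RingHom.Finite.of_surjective _ (𝓜.e s).surjective) _
      let l : Γ(M, 𝓜.U s) ≃ₗ[Γ(Y, 𝓜.U s)] N.obj s := { ε s with map_smul' := ε_smul s }
      exact Module.Finite.equiv l.symm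
    let M' : CohCat Y := ⟨M, fp_of_cover M 𝓜.U 𝓜.aff 𝓜.cover 𝓜.noeth hL hF⟩
    let l : ∀ s, (𝓜.secObj M').obj s ≃ₗ[X.A s.1] N.obj s := fun s =>
      { ε s with
        map_smul' := fun a x => (ε_smul s ((𝓜.e s).symm a) x).trans (by
          rw [RingEquiv.apply_symm_apply]; rfl) }
    exact ⟨M', ⟨
      { hom := ⟨fun s => (l s).toLinearMap, fun h x => ε_res _ _ h x⟩
        inv := ⟨fun s => (l s).symm.toLinearMap, fun {s t} h x => (l t).injective (by
          obtain ⟨x, rfl⟩ := (l s).surjective x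
          refine ((l t).apply_symm_apply _).trans ((ε_res _ _ h x).symm.trans ?_)
          exact congrArg (fun y => ε t (mres M (𝓜.anti h) y)) ((l s).symm_apply_apply x).symm)⟩
        hom_inv_id := Coh.hom_ext fun s x => (l s).symm_apply_apply x
        inv_hom_id := Coh.hom_ext fun s x => (l s).apply_symm_apply x }⟩⟩

theorem isEquivalence : 𝓜.sec.IsEquivalence where
  faithful := 𝓜.faithful
  full := 𝓜.full
  essSurj := 𝓜.essSurj

end Model

end Pool.Agent.Lib.MP_cd184e_ag.B
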