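import Pool.Agent.Lib.MP_cd184e_ag.B.QCoh

/-! Finitely presented sheaves of modules in terms of sections over affine opens. -/

set_option autoImplicit false

namespace Pool.Agent.Lib.MP_cd184e_ag.B

open CategoryTheory AlgebraicGeometry Opposite TopologicalSpace Limits

variable {X : Scheme.{0}}

/-- The global sections of the restriction to `Spec Γ(X, U)` are the sections over `U`. -/
noncomputable def topEquiv (M : X.Modules) {U : X.Opens} (hU : IsAffineOpen U) :
    Γ(M.restrict hU.fromSpec, ⊤) ≃ₗ[Γ(X, U)] Γ(M, U) where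
  toFun s := mres M (image_top hU).ge ((M.restrictAppIso hU.fromSpec ⊤).hom s)
  map_add' s t := by rw [map_add, map_add]
  map_smul' r s := by rw [smul_restrict, mres_smul, rres_rres, rres_self]; rfl
  invFun t := (M.restrictAppIso hU.fromSpec ⊤).inv (mres M (image_le hU ⊤) t)
  left_inv s := (mres_mres M _ _ _).trans (mres_self M _ _)
  right_inv t := (mres_mres M (image_le hU ⊤) (image_top hU).ge t).trans (mres_self M _ _)

set_option backward.isDefEq.respectTransparency false in
theorem finite_spec {R : CommRingCat.{0}} (M : (Spec R).Modules) [M.IsQuasicoherent]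
    (G : M.GeneratingSections) [G.IsFiniteType] : Module.Finite R Γ(M, ⊤) := by
  have hi := Scheme.Modules.isIso_fromTildeΓ_of_isQuasicoherent M
  let g : tilde (ModuleCat.of R (G.I →₀ R)) ⟶
      tilde ((modulesSpecToSheaf.obj M).presheaf.obj (.op ⊤)) :=
    (tildeFinsupp G.I).hom ≫ G.π ≫ (@asIso _ _ _ _ M.fromTildeΓ hi).inv
  have hg : Epi g := by
    have h1 : Epi (G.π ≫ (@asIso _ _ _ _ M.fromTildeΓ hi).inv) :=
      @epi_comp _ _ _ _ _ _ G.epi _ (epi_of_epi_fac (f := (@asIso _ _ _ _ M.fromTildeΓ hi).hom)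
        (@asIso _ _ _ _ M.fromTildeΓ hi).hom_inv_id)
    exact @epi_comp _ _ _ _ _ _ (epi_of_epi_fac (tildeFinsupp G.I).inv_hom_id) _ h1
  let g' := (tilde.functor R).preimage g
  have : Epi ((tilde.functor R).map g') := by
    rw [(tilde.functor R).map_preimage]
    exact hg
  have : Epi g' := (tilde.functor R).epi_of_epi_map this
  exact Module.Finite.of_surjective g'.hom ((ModuleCat.epi_iff_surjective g').1 this)

set_option backward.isDefEq.respectTransparency false in
theorem finite_of_le (M : X.Modules) [M.IsQuasicoherent] {W V : X.Opens} (hV : IsAffineOpen V)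
    (h : V ≤ W) (G : (SheafOfModules.over M W).GeneratingSections) [G.IsFiniteType] :
    Module.Finite Γ(X, V) Γ(M, V) := by
  let u := hV.isoSpec.inv ≫ X.homOfLE h
  have : PreservesColimitsOfSize.{0, 0} (Scheme.Modules.restrictFunctor u) := inferInstance
  let F := (Scheme.Modules.overEquiv W).functor ⋙ Scheme.Modules.restrictFunctor u
  let iso : SheafOfModules.overFunctor X.ringCatSheaf _ ⋙ F ≅
      Scheme.Modules.restrictFunctor hV.fromSpec := (Functor.associator _ _ _).symm ≪≫
      Functor.isoWhiskerRight (Scheme.Modules.overFunctorEquiv _) _ ≪≫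
      (Scheme.Modules.restrictFunctorComp _ _).symm ≪≫
      (Scheme.Modules.restrictFunctorCongr (by simp [u]))
  let G' : (M.restrict hV.fromSpec).GeneratingSections :=
    (G.map F (Scheme.Modules.restrictUnitIso _).symm).ofEpi (iso.app M).hom
  have : G'.IsFiniteType := ⟨inferInstanceAs (Finite G.I)⟩
  have := finite_spec (M.restrict hV.fromSpec) G'
  exact Module.Finite.equiv (topEquiv M hV)

theorem finite_of_fp (M : X.Modules) [M.IsFinitePresentation] {U : X.Opens}
    (hU : IsAffineOpen U) : Module.Finite Γ(X, U) Γ(M, U) := by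
  classical
  obtain ⟨q, hq⟩ := SheafOfModules.IsFinitePresentation.exists_quasicoherentData M
  have hqc : M.IsQuasicoherent := q.isQuasicoherent
  have cov := q.coversTop
  rw [Opens.coversTop_iff, IsOpenCover] at cov
  have hL := locAt_of_qcoh M hU
  have key : ∀ x : U, ∃ (f : Γ(X, U)) (S : Finset Γ(M, U)), x.1 ∈ X.basicOpen f ∧
      ∀ m : Γ(M, U), ∃ n : ℕ, f ^ n • m ∈ Submodule.span Γ(X, U) (S : Set Γ(M, U)) := by
    intro x
    obtain ⟨i, hi⟩ : ∃ i, x.1 ∈ q.X i := Opens.mem_iSup.1 (by rw [cov]; trivial)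
    obtain ⟨f, hf, hx⟩ := hU.exists_basicOpen_le (V := q.X i) ⟨x.1, hi⟩ x.2
    have hg := (hq.isFinite_presentation i).isFiniteType_generators
    have hfin := finite_of_le M (hU.basicOpen f) hf (q.presentation i).generators
    obtain ⟨S, hS⟩ := hfin.fg_top
    choose n t ht using hL.ex f _ (X.basicOpen_le f) rfl
    refine ⟨f, S.image t, hx, fun m => ?_⟩
    have hu := isUnit_rres f (X.basicOpen_le f) le_rfl
    have loc := hU.isLocalization_basicOpen f
    have h1 : ∀ y ∈ Submodule.span Γ(X, X.basicOpen f) (S : Set Γ(M, X.basicOpen f)),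
        ∃ (k : ℕ), ∃ z ∈ Submodule.span Γ(X, U) ((S.image t : Finset _) : Set Γ(M, U)),
          mres M (X.basicOpen_le f) z = rres (X.basicOpen_le f) f ^ k • y := by
      intro y hy
      induction hy using Submodule.span_induction with
      | mem y hy => exact ⟨n y, t y, Submodule.subset_span (by simpa using ⟨y, hy, rfl⟩), ht y⟩
      | zero => exact ⟨0, 0, zero_mem _, by simp⟩
      | add y y' _ _ hy hy' =>
        obtain ⟨k, z, hz, e⟩ := hy
        obtain ⟨k', z', hz', e'⟩ := hy'
        refine ⟨k + k', f ^ k' • z + f ^ k • z',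
          add_mem (Submodule.smul_mem _ _ hz) (Submodule.smul_mem _ _ hz'), ?_⟩
        rw [map_add, mres_smul, mres_smul, e, e', map_pow, map_pow, smul_add, ← mul_smul,
          ← mul_smul, ← pow_add, ← pow_add, add_comm k' k]
      | smul r y _ hy =>
        obtain ⟨k, z, hz, e⟩ := hy
        obtain ⟨⟨a, ⟨_, l, rfl⟩⟩, ha⟩ := IsLocalization.surj (Submonoid.powers f) r
        have ha' : r * rres (X.basicOpen_le f) f ^ l = rres (X.basicOpen_le f) a := by
          rw [← map_pow]
          exact ha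
        refine ⟨k + l, a • z, Submodule.smul_mem _ _ hz, ?_⟩
        rw [mres_smul, e, ← ha', ← mul_smul, ← mul_smul]
        congr 1
        ring
    obtain ⟨k, z, hz, e⟩ := h1 (mres M (X.basicOpen_le f) m) (by rw [hS]; trivial)
    obtain ⟨l, hl⟩ := hL.un f _ (X.basicOpen_le f) rfl (f ^ k • m - z) (by
      rw [map_sub, mres_smul, e, map_pow, sub_self])
    refine ⟨l + k, ?_⟩
    rw [smul_sub, sub_eq_zero, ← mul_smul, ← pow_add] at hl
    rw [hl]
    exact Submodule.smul_mem _ _ hz
  choose f S hx hS using key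
  have hspan : Ideal.span (Set.range f) = ⊤ := by
    rw [← hU.self_le_iSup_basicOpen_iff]
    intro x hxU
    exact Opens.mem_iSup.2 ⟨⟨f ⟨x, hxU⟩, _, rfl⟩, hx ⟨x, hxU⟩⟩
  obtain ⟨T, hT, hT'⟩ := (Ideal.span_eq_top_iff_finite _).1 hspan
  choose p hp using fun g (hg : g ∈ T) => hT hg
  refine ⟨⟨T.attach.biUnion fun g => S (p g.1 g.2), ?_⟩⟩
  rw [eq_top_iff]
  intro m _
  refine Submodule.mem_of_span_eq_top_of_smul_pow_mem _ (T : Set _) hT' m fun g => ?_
  obtain ⟨n, hn⟩ := hS (p g.1 g.2) m
  refine ⟨n, ?_⟩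
  rw [hp g.1 g.2] at hn
  refine Submodule.span_mono ?_ hn
  intro y hy
  simp only [Finset.coe_biUnion, Set.mem_iUnion]
  exact ⟨⟨g.1, g.2⟩, by simp, hy⟩

set_option backward.isDefEq.respectTransparency false in
/-- A finite presentation over an affine open. -/
theorem exists_presentation (M : X.Modules) {U : X.Opens} (hU : IsAffineOpen U)
    [IsNoetherianRing Γ(X, U)] (hL : LocAt M U) [Module.Finite Γ(X, U) Γ(M, U)] :
    ∃ P : (SheafOfModules.over M U).Presentation, P.IsFinite := by
  have := (locAt_iff M hU).1 hL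
  let N : ModuleCat Γ(X, U) :=
    (modulesSpecToSheaf.obj (M.restrict hU.fromSpec)).presheaf.obj (.op ⊤)
  have hN : Module.Finite Γ(X, U) N := Module.Finite.equiv (topEquiv M hU).symm
  obtain ⟨s, hs⟩ := hN.fg_top
  obtain ⟨t, ht⟩ := IsNoetherian.noetherian
    (LinearMap.ker (Finsupp.linearCombination Γ(X, U) (Subtype.val : ↥(s : Set N) → N)))
  let P₀ := presentationTilde N (s : Set N) hs (t : Set _) ht
  let P₁ : (M.restrict hU.fromSpec).Presentation :=
    SheafOfModules.Presentation.ofIsIso.{0, 0, 0} (M.restrict hU.fromSpec).fromTildeΓ P₀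
  have : PreservesColimitsOfSize.{0, 0} (Scheme.Modules.restrictFunctor hU.isoSpec.hom) :=
    inferInstance
  let F := Scheme.Modules.restrictFunctor hU.isoSpec.hom ⋙ (Scheme.Modules.overEquiv U).inverse
  let η₀ : (Scheme.Modules.overEquiv U).functor.obj
      (SheafOfModules.unit (X.ringCatSheaf.over U)) ≅
      SheafOfModules.unit (U : Scheme).ringCatSheaf := Iso.refl _
  let η : SheafOfModules.unit (X.ringCatSheaf.over U) ≅ F.obj (SheafOfModules.unit _) :=
    (Scheme.Modules.overEquiv U).unitIso.app _ ≪≫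
      (Scheme.Modules.overEquiv U).inverse.mapIso
        (η₀ ≪≫ (Scheme.Modules.restrictUnitIso hU.isoSpec.hom).symm)
  let iso : F.obj (M.restrict hU.fromSpec) ≅ SheafOfModules.over M U :=
    (Scheme.Modules.overEquiv U).inverse.mapIso
      (((Scheme.Modules.restrictFunctorComp _ _).symm ≪≫
        Scheme.Modules.restrictFunctorCongr hU.isoSpec_hom_fromSpec ≪≫
        (Scheme.Modules.overFunctorEquiv U).symm).app M) ≪≫
      ((Scheme.Modules.overEquiv U).unitIso.app _).symm
  refine ⟨SheafOfModules.Presentation.ofIsIso.{0, 0, 0} iso.hom (P₁.map F η), ⟨⟨?_⟩, ⟨?_⟩⟩⟩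
  · exact inferInstanceAs (Finite (s : Set N))
  · exact t.finite_toSet.to_subtype

theorem fp_of_cover (M : X.Modules) {ι : Type} (U : ι → X.Opens) (hU : ∀ a, IsAffineOpen (U a))
    (hc : iSup U = ⊤) (hN : ∀ a, IsNoetherianRing Γ(X, U a)) (hL : ∀ a, LocAt M (U a))
    (hF : ∀ a, Module.Finite Γ(X, U a) Γ(M, U a)) : M.IsFinitePresentation := by
  choose P hP using fun a => exists_presentation M (hU a) (hL a)
  let q : M.QuasicoherentData :=
    { I := ι, X := U, coversTop := by rwa [Opens.coversTop_iff], presentation := P }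
  exact ⟨q, ⟨hP⟩⟩

end Pool.Agent.Lib.MP_cd184e_ag.B
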