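import Mathlib

/-! Transfer of `Ext` groups and of generation along an equivalence of abelian categories. -/

set_option autoImplicit false

namespace Pool.Agent.Lib.MP_cd184e_ag.B

open CategoryTheory Limits Abelian

universe w₁ w₂ t₁ t₂ v₁ v₂ u₁ u₂

variable {C : Type u₁} [Category.{v₁} C] [Abelian C] {D : Type u₂} [Category.{v₂} D] [Abelian D]
  (e : C ≌ D)

theorem additive_functor : e.functor.Additive :=
  Functor.additive_of_preserves_binary_products _

theorem additive_inverse : e.inverse.Additive :=
  Functor.additive_of_preserves_binary_products _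

attribute [local instance] additive_functor additive_inverse

section

variable [HasDerivedCategory.{t₁} C] [HasDerivedCategory.{t₂} D]

/-- The unit isomorphism on derived categories. -/
noncomputable def derivedUnit :
    𝟭 (DerivedCategory C) ≅ e.functor.mapDerivedCategory ⋙ e.inverse.mapDerivedCategory :=
  Localization.liftNatIso DerivedCategory.Q (HomologicalComplex.quasiIso C (ComplexShape.up ℤ))
    DerivedCategory.Q
    (DerivedCategory.Q ⋙ e.functor.mapDerivedCategory ⋙ e.inverse.mapDerivedCategory) _ _
    ((Functor.leftUnitor _).symm ≪≫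
      Functor.isoWhiskerRight (e.mapHomologicalComplex (ComplexShape.up ℤ)).unitIso _ ≪≫
      Functor.associator _ _ _ ≪≫
      Functor.isoWhiskerLeft _ e.inverse.mapDerivedCategoryFactors.symm ≪≫
      (Functor.associator _ _ _).symm ≪≫
      Functor.isoWhiskerRight e.functor.mapDerivedCategoryFactors.symm _ ≪≫
      Functor.associator _ _ _)

theorem faithful_derived : e.functor.mapDerivedCategory.Faithful :=
  haveI : (e.functor.mapDerivedCategory ⋙ e.inverse.mapDerivedCategory).Faithful :=
    Functor.Faithful.of_iso (derivedUnit e)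
  Functor.Faithful.of_comp _ e.inverse.mapDerivedCategory

theorem isGE_map (K : DerivedCategory C) (a : ℤ) [K.IsGE a] :
    (e.functor.mapDerivedCategory.obj K).IsGE a := by
  obtain ⟨L, hL, ⟨i⟩⟩ := DerivedCategory.exists_iso_Q_obj_of_isGE K a
  have : CochainComplex.IsStrictlyGE
      ((e.functor.mapHomologicalComplex (ComplexShape.up ℤ)).obj L) a := by
    rw [CochainComplex.isStrictlyGE_iff]
    intro n hn
    exact e.functor.map_isZero (L.isZero_of_isStrictlyGE a n hn)
  have : DerivedCategory.TStructure.t.IsGE ((e.functor.mapHomologicalComplex (ComplexShape.up ℤ) ⋙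
      DerivedCategory.Q).obj L) a := inferInstanceAs (DerivedCategory.IsGE (DerivedCategory.Q.obj
        ((e.functor.mapHomologicalComplex (ComplexShape.up ℤ)).obj L)) a)
  exact DerivedCategory.TStructure.t.isGE_of_iso
    (e.functor.mapDerivedCategory.mapIso i ≪≫ e.functor.mapDerivedCategoryFactors.app L).symm a

theorem isLE_map (K : DerivedCategory C) (a : ℤ) [K.IsLE a] :
    (e.functor.mapDerivedCategory.obj K).IsLE a := by
  obtain ⟨L, hL, ⟨i⟩⟩ := DerivedCategory.exists_iso_Q_obj_of_isLE K a
  have : CochainComplex.IsStrictlyLE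
      ((e.functor.mapHomologicalComplex (ComplexShape.up ℤ)).obj L) a := by
    rw [CochainComplex.isStrictlyLE_iff]
    intro n hn
    exact e.functor.map_isZero (L.isZero_of_isStrictlyLE a n hn)
  have : DerivedCategory.TStructure.t.IsLE ((e.functor.mapHomologicalComplex (ComplexShape.up ℤ) ⋙
      DerivedCategory.Q).obj L) a := inferInstanceAs (DerivedCategory.IsLE (DerivedCategory.Q.obj
        ((e.functor.mapHomologicalComplex (ComplexShape.up ℤ)).obj L)) a)
  exact DerivedCategory.TStructure.t.isLE_of_iso
    (e.functor.mapDerivedCategory.mapIso i ≪≫ e.functor.mapDerivedCategoryFactors.app L).symm a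

/-- Generation of the bounded derived category passes along an equivalence. -/
theorem generates_of_equiv (T : C) (T' : D) (i : e.functor.obj T ≅ T')
    (h : ∀ (K : DerivedCategory D) (a b : ℤ), K.IsGE a → K.IsLE b →
      (ObjectProperty.singleton ((DerivedCategory.singleFunctor D 0).obj T')).triangEnvelope K)
    (K : DerivedCategory C) (a b : ℤ) (ha : K.IsGE a) (hb : K.IsLE b) :
    (ObjectProperty.singleton ((DerivedCategory.singleFunctor C 0).obj T)).triangEnvelope K := by
  let P := (ObjectProperty.singleton ((DerivedCategory.singleFunctor C 0).obj T)).triangEnvelope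
  let Q := P.inverseImage e.inverse.mapDerivedCategory
  have hQ : Q.IsStableUnderRetracts :=
    ⟨fun r hY => ObjectProperty.prop_of_retract P (r.map e.inverse.mapDerivedCategory) hY⟩
  have hle : (ObjectProperty.singleton
      ((DerivedCategory.singleFunctor D 0).obj T')).triangEnvelope ≤ Q := by
    rw [ObjectProperty.triangEnvelope_le_iff]
    rintro _ ⟨_⟩
    refine P.prop_of_iso ?_ (ObjectProperty.le_triangEnvelope _ _ (ObjectProperty.ofObj_apply _ ()))
    exact (DerivedCategory.singleFunctor C 0).mapIso (e.unitIso.app T ≪≫ e.inverse.mapIso i) ≪≫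
      ((e.inverse.mapDerivedCategorySingleFunctor 0).app T').symm
  have := hle _ (h _ a b (isGE_map e K a) (isLE_map e K b))
  exact P.prop_of_iso ((derivedUnit e).app K).symm this

end

variable [HasExt.{w₁} C] [HasExt.{w₂} D]

theorem ext_map_injective {X Y : C} {n : ℕ} (α : Ext X Y n)
    (h : α.mapExactFunctor e.functor = 0) : α = 0 := by
  let := HasDerivedCategory.standard C
  let := HasDerivedCategory.standard D
  have := faithful_derived e
  have h1 := Ext.mapExactFunctor_hom e.functor α
  rw [h, Ext.zero_hom, eq_comm, Preadditive.IsIso.comp_left_eq_zero,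
    Preadditive.IsIso.comp_right_eq_zero, ShiftedHom.map,
    Preadditive.IsIso.comp_right_eq_zero] at h1
  apply Ext.ext
  rw [Ext.zero_hom]
  exact e.functor.mapDerivedCategory.map_injective (by rw [h1, Functor.map_zero])

omit [HasExt.{w₁} C] in
theorem ext_zero_of_iso {X Y X' Y' : D} {n : ℕ} (i : X ≅ X') (j : Y ≅ Y')
    (h : ∀ α : Ext X' Y' n, α = 0) (α : Ext X Y n) : α = 0 := by
  have h1 := h ((Ext.mk₀ i.inv).comp (α.comp (Ext.mk₀ j.hom) (add_zero n)) (zero_add n))
  have h2 : α = (Ext.mk₀ i.hom).comp (((Ext.mk₀ i.inv).comp (α.comp (Ext.mk₀ j.hom) (add_zero n))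
      (zero_add n)).comp (Ext.mk₀ j.inv) (add_zero n)) (zero_add n) := by
    simp
  rw [h2, h1]
  simp

/-- Vanishing of `Ext` passes along an equivalence. -/
theorem ext_zero_of_equiv {X Y : C} {X' Y' : D} {n : ℕ} (i : e.functor.obj X ≅ X')
    (j : e.functor.obj Y ≅ Y') (h : ∀ α : Ext X' Y' n, α = 0) (α : Ext X Y n) : α = 0 :=
  ext_map_injective e α (ext_zero_of_iso i j h _)

/-- Non vanishing of `Ext` passes along an equivalence. -/
theorem ext_ne_zero_of_equiv {X Y : C} {X' Y' : D} {n : ℕ} (i : e.functor.obj X ≅ X')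
    (j : e.functor.obj Y ≅ Y') (h : ∃ α : Ext X' Y' n, α ≠ 0) : ∃ α : Ext X Y n, α ≠ 0 := by
  by_contra hc
  push Not at hc
  obtain ⟨α, hα⟩ := h
  exact hα (ext_zero_of_equiv e.symm (e.unitIso.app X ≪≫ e.inverse.mapIso i).symm
    (e.unitIso.app Y ≪≫ e.inverse.mapIso j).symm hc α)

end Pool.Agent.Lib.MP_cd184e_ag.B
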