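import Pool.Agent.Lib.MP_cd184e_ag.B.EssSurj
import Pool.Agent.Lib.MP_cd184e_ag.B.Transfer
import Pool.Agent.Lib.MP_cd184e_ag.B.Frob
import Pool.Agent.Lib.MP_cd184e_ag.B.ProjModel
import Pool.Agent.Lib.MP_cd184e_ag.B.TangH

/-! From descent data to schemes: the tilting property of the Frobenius pushforward. -/

set_option autoImplicit false

namespace Pool.Agent.Lib.MP_cd184e_ag.B

open CategoryTheory AlgebraicGeometry Opposite TopologicalSpace Limits
open Pool.Agent.Lib.MP_cd184e_ag.T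

theorem isTilting_of_equiv {C D : Type 1} [Category.{0} C] [Abelian C] [Category.{0} D]
    [Abelian D] (e : C ≌ D) (T : C) (T' : D) (i : e.functor.obj T ≅ T') (h : IsTilting T') :
    IsTilting T := by
  let := HasDerivedCategory.standard C
  let := HasDerivedCategory.standard D
  have := HasExt.standard C
  have := HasExt.standard D
  have s1 : ∀ {E : Type 1} [Category.{1} E] (Z : E),
      ObjectProperty.singleton Z = fun W => W = Z := fun Z => by
    ext W
    simp [eq_comm]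
  refine ⟨fun n => subsingleton_of_forall_eq 0 (ext_zero_of_equiv e i i fun α =>
    (h.1 n).elim _ _), fun Y ⟨a, b, ha, hb⟩ => ?_⟩
  have := generates_of_equiv e T T' i (fun K a b ha hb => by
    rw [s1]
    exact h.2 K ⟨a, b, ha, hb⟩) Y a b ha hb
  rwa [s1] at this

theorem tilting_of_isTilting {C : Type 1} [Category.{0} C] [Abelian C] (T : C)
    (h : IsTilting T) :
    letI := HasDerivedCategory.standard C
    Tilting T := by
  let := HasDerivedCategory.standard C
  have := HasExt.standard C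
  refine ⟨fun n hn => ?_, h.2⟩
  obtain ⟨m, rfl⟩ : ∃ m : ℕ, n = ((m + 1 : ℕ) : ℤ) := ⟨(n - 1).toNat, by omega⟩
  have := h.1 m
  exact (Abelian.Ext.homEquiv (X := T) (Y := T) (n := m + 1)).symm.subsingleton

variable {k K : Type} [Field k] [Field K] [Algebra k K]

namespace Model

variable {X : ProjVar k K} {Y : Scheme.{0}} (𝓜 : Model X Y)

theorem frob_smul {p : ℕ} [hp : Fact p.Prime] [CharP k p] {h : (p : Γ(Y, ⊤)) = 0} (s : X.Idx)
    (a : Γ(Y, 𝓜.U s)) (x : Γ(frobPush Y p hp.1 h, 𝓜.U s)) :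
    𝓜.e s (frobSec _ (a • x)) = frobenius _ p (𝓜.e s a) * 𝓜.e s (frobSec _ x) := by
  rw [frobSec_smul, map_mul, map_pow, frobenius_def]

include 𝓜 in
theorem fp_frobPush (p : ℕ) [hp : Fact p.Prime] [CharP k p] [PerfectField k]
    (h : (p : Γ(Y, ⊤)) = 0) : (frobPush Y p hp.1 h).IsFinitePresentation := by
  refine fp_of_cover _ 𝓜.U 𝓜.aff 𝓜.cover 𝓜.noeth (fun s => locAt_frobPush (𝓜.aff s)) fun s => ?_
  let := Module.compHom (X.A s.1) ((frobenius (X.A s.1) p).comp (𝓜.e s).toRingHom)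
  have : Module.Finite Γ(Y, 𝓜.U s) (X.A s.1) := finite_compHom _
    ((X.frobenius_finite p s.1).comp (RingHom.Finite.of_surjective _ (𝓜.e s).surjective)) _
  let l : Γ(frobPush Y p hp.1 h, 𝓜.U s) ≃ₗ[Γ(Y, 𝓜.U s)] X.A s.1 :=
    { (frobSec _).trans (𝓜.e s).toAddEquiv with map_smul' := 𝓜.frob_smul s }
  exact Module.Finite.equiv l.symm

include 𝓜 in
theorem isTiltingSheaf (p : ℕ) [hp : Fact p.Prime] [CharP k p] [PerfectField k]
    (h : (p : Γ(Y, ⊤)) = 0) (hT : IsTilting (Coh.frob p (Coh.unit X))) :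
    IsTiltingSheaf (frobPush Y p hp.1 h) := by
  have := 𝓜.isEquivalence
  have : HasFiniteProducts (CohCat Y) :=
    ⟨fun _ => Adjunction.hasLimitsOfShape_of_equivalence 𝓜.sec⟩
  let := abelianOfEquivalence 𝓜.sec
  let T : CohCat Y := ⟨frobPush Y p hp.1 h, 𝓜.fp_frobPush p h⟩
  let l : ∀ s, (𝓜.secObj T).obj s ≃ₗ[X.A s.1] (Coh.frob p (Coh.unit X)).obj s := fun s =>
    { (frobSec (hp := hp.1) (h := h) (𝓜.U s)).trans (𝓜.e s).toAddEquiv with
      map_smul' := fun a x => (𝓜.frob_smul s ((𝓜.e s).symm a) x).trans (by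
        rw [RingEquiv.apply_symm_apply]; rfl) }
  exact ⟨_, this, tilting_of_isTilting _ <| isTilting_of_equiv 𝓜.sec.asEquivalence T _
    { hom := ⟨fun s => (l s).toLinearMap, fun i x => 𝓜.e_res i _⟩
      inv := ⟨fun s => (l s).symm.toLinearMap, fun i x => 𝓜.symm_inc i x⟩
      hom_inv_id := Coh.hom_ext fun s x => (l s).symm_apply_apply x
      inv_hom_id := Coh.hom_ext fun s x => (l s).apply_symm_apply x } hT⟩

end Model

/-- Passage from a projective variety given inside its function field to the scheme `Proj`. -/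
theorem proj_of_projVar (p : ℕ) [hp : Fact p.Prime] [CharP k p] [PerfectField k]
    (X : ProjVar k K)
    (hX : ∀ j ∈ X.J, Algebra.Smooth k (X.A {j}) ∧ IsFractionRing (X.A {j}) K)
    (hH : ¬ H1 tang fun j : X.J => X.A {j.1}) (hT : IsTilting (Coh.frob p (Coh.unit X))) :
    ∃ (S : Type) (_ : CommRing S) (_ : Algebra k S) (𝒜 : ℕ → Submodule k S)
      (_ : GradedAlgebra 𝒜) (n : ℕ) (x : Fin n → S), (∀ l, x l ∈ 𝒜 1) ∧
      Algebra.adjoin k (Set.range x) = ⊤ ∧ IsIntegral (Proj 𝒜) ∧ Smooth (strMap 𝒜) ∧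
      Nontrivial (Sheaf.H (tangentSheaf (strMap 𝒜)) 1) ∧
      IsTiltingSheaf (frobPush (Proj 𝒜) p hp.1 (cast_top_eq_zero (strMap 𝒜) p)) :=
  ⟨hring X, inferInstance, inferInstance, grade X, inferInstance, X.n, gen X, gen_mem X,
    adjoin_gen X, (projModel X).isIntegral,
    (projModel X).smooth _ (secEquiv_const X) fun j hj => (hX j hj).1,
    (projModel X).nontrivial_H1 _ (secEquiv_const X) (fun j hj => (hX j hj).2) hH,
    (projModel X).isTiltingSheaf p _ hT⟩

end Pool.Agent.Lib.MP_cd184e_ag.B
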