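import Pool.Agent.Lib.MP_cd184e_ag.B.Tang
import Pool.Agent.Lib.MP_cd184e_ag.Defs

/-! Vector fields on an integral scheme as derivations of the function field. -/

set_option autoImplicit false

namespace Pool.Agent.Lib.MP_cd184e_ag.B

open CategoryTheory AlgebraicGeometry Opposite TopologicalSpace Limits

variable {Y : Scheme.{0}} {k : Type} [Field k]

/-- Functions on nonempty open sets as elements of a field. -/
structure Gen (f : Y ⟶ Spec (.of k)) (K : Type) [Field K] [Algebra k K] where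
  γ : ∀ V : Y.Opens, (V : Set Y).Nonempty → Γ(Y, V) →+* K
  inj : ∀ V h, Function.Injective (γ V h)
  res : ∀ {V W : Y.Opens} (i : V ≤ W) hV hW a, γ V hV (rres i a) = γ W hW a
  const : ∀ V h c, γ V h (const f V c) = algebraMap k K c
  surj : ∀ x, ∃ V h a, γ V h a = x
  inter : ∀ {V W : Y.Opens}, (V : Set Y).Nonempty → (W : Set Y).Nonempty →
    ((V ⊓ W : Y.Opens) : Set Y).Nonempty

namespace Gen

variable {f : Y ⟶ Spec (.of k)} {K : Type} [Field K] [Algebra k K] (G : Gen f K)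

theorem ext_γ {V : Y.Opens} (a b : Γ(Y, V)) (h : ∀ hV, G.γ V hV a = G.γ V hV b) : a = b := by
  by_cases hV : (V : Set Y).Nonempty
  · exact G.inj V hV (h hV)
  · obtain rfl : V = ⊥ := (Opens.not_nonempty_iff_eq_bot V).1 hV
    exact Subsingleton.elim _ _

theorem surj₂ {W : Y.Opens} (hW : (W : Set Y).Nonempty) (x y : K) :
    ∃ V, V ≤ W ∧ ∃ h a b, G.γ V h a = x ∧ G.γ V h b = y := by
  obtain ⟨V, h, a, rfl⟩ := G.surj x
  obtain ⟨V', h', b, rfl⟩ := G.surj y
  exact ⟨W ⊓ (V ⊓ V'), inf_le_left, G.inter hW (G.inter h h'),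
    rres (inf_le_right.trans inf_le_left) a, rres (inf_le_right.trans inf_le_right) b,
    G.res _ _ _ _, G.res _ _ _ _⟩

theorem exists_val {W : Y.Opens} (hW : (W : Set Y).Nonempty) (D : vfields f W) (x : K) :
    ∃ y, ∀ V (i : V ≤ W) h a, G.γ V h a = x → y = G.γ V h (D.1 ⟨V, i⟩ a) := by
  obtain ⟨V, i, h, a, -, rfl, -⟩ := G.surj₂ hW x x
  refine ⟨G.γ V h (D.1 ⟨V, i⟩ a), fun V' i' h' a' e => ?_⟩
  have h2 := G.inter h h'
  have e' : rres (inf_le_left : V ⊓ V' ≤ V) a = rres inf_le_right a' :=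
    G.inj _ h2 (by rw [G.res _ h2 h, G.res _ h2 h', e])
  rw [← G.res (inf_le_left : V ⊓ V' ≤ V) h2, ← G.res (inf_le_right : V ⊓ V' ≤ V') h2,
    ← D.2.2.2, ← D.2.2.2, e']

/-- The value of a vector field on an element of the field. -/
noncomputable def val {W : Y.Opens} (hW : (W : Set Y).Nonempty) (D : vfields f W) (x : K) : K :=
  (G.exists_val hW D x).choose

theorem val_γ {W : Y.Opens} (hW : (W : Set Y).Nonempty) (D : vfields f W) {V : Y.Opens}
    (i : V ≤ W) (h : (V : Set Y).Nonempty) (a : Γ(Y, V)) :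
    G.val hW D (G.γ V h a) = G.γ V h (D.1 ⟨V, i⟩ a) :=
  (G.exists_val hW D _).choose_spec V i h a rfl

theorem val_mul {W : Y.Opens} (hW : (W : Set Y).Nonempty) (D : vfields f W) (x y : K) :
    G.val hW D (x * y) = x * G.val hW D y + y * G.val hW D x := by
  obtain ⟨V, i, h, a, b, rfl, rfl⟩ := G.surj₂ hW x y
  rw [← map_mul, G.val_γ hW D i, G.val_γ hW D i, G.val_γ hW D i, D.2.1, map_add, map_mul, map_mul]

/-- A vector field as a derivation of the field. -/
noncomputable def der {W : Y.Opens} (hW : (W : Set Y).Nonempty) (D : vfields f W) :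
    Derivation k K K :=
  Derivation.mk'
    { toFun := G.val hW D
      map_add' x y := by
        obtain ⟨V, i, h, a, b, rfl, rfl⟩ := G.surj₂ hW x y
        rw [← map_add, G.val_γ hW D i, G.val_γ hW D i, G.val_γ hW D i, map_add, map_add]
      map_smul' c x := by
        rw [Algebra.smul_def, G.val_mul, ← G.const W hW c, G.val_γ hW D le_rfl, D.2.2.1,
          map_zero, mul_zero, add_zero, G.const, RingHom.id_apply, Algebra.smul_def] }
    (G.val_mul hW D)

theorem der_γ {W : Y.Opens} (hW : (W : Set Y).Nonempty) (D : vfields f W) {V : Y.Opens}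
    (i : V ≤ W) (h : (V : Set Y).Nonempty) (a : Γ(Y, V)) :
    G.der hW D (G.γ V h a) = G.γ V h (D.1 ⟨V, i⟩ a) := G.val_γ hW D i h a

/-- A vector field as a derivation of the field, additively. -/
noncomputable def toDer {W : Y.Opens} (hW : (W : Set Y).Nonempty) :
    vfields f W →+ Derivation k K K :=
  AddMonoidHom.mk' (G.der hW) fun D E => Derivation.ext fun x => by
    obtain ⟨V, i, h, a, -, rfl, -⟩ := G.surj₂ hW x x
    rw [Derivation.add_apply, G.der_γ hW _ i, G.der_γ hW _ i, G.der_γ hW _ i, ← map_add]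
    rfl

theorem toDer_γ {W : Y.Opens} (hW : (W : Set Y).Nonempty) (D : vfields f W) {V : Y.Opens}
    (i : V ≤ W) (h : (V : Set Y).Nonempty) (a : Γ(Y, V)) :
    G.toDer hW D (G.γ V h a) = G.γ V h (D.1 ⟨V, i⟩ a) := G.der_γ hW D i h a

theorem toDer_vres {W W' : Y.Opens} (i : W' ≤ W) (hW : (W : Set Y).Nonempty)
    (hW' : (W' : Set Y).Nonempty) (D : vfields f W) :
    G.toDer hW' (vres f i D) = G.toDer hW D := Derivation.ext fun x => by
  obtain ⟨V, j, h, a, -, rfl, -⟩ := G.surj₂ hW' x x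
  rw [G.toDer_γ hW' _ j, G.toDer_γ hW _ (j.trans i)]
  rfl

theorem ext_toDer {W : Y.Opens} (D E : vfields f W)
    (h : ∀ hW, G.toDer hW D = G.toDer hW E) : D = E :=
  Subtype.ext (funext fun V => AddMonoidHom.ext fun a => G.ext_γ _ _ fun hV => by
    rw [← G.toDer_γ (hV.mono V.2) D V.2, ← G.toDer_γ (hV.mono V.2) E V.2, h])

theorem exists_lift {W : Y.Opens} (hW : (W : Set Y).Nonempty) (aff : IsAffineOpen W)
    (δ : Derivation k K K) (hδ : ∀ a, ∃ b, G.γ W hW b = δ (G.γ W hW a)) {V : Y.Opens}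
    (i : V ≤ W) (a : Γ(Y, V)) : ∃ b, ∀ h, G.γ V h b = δ (G.γ V h a) := by
  have key : ∀ (g : Γ(Y, W)) (h : (Y.basicOpen g : Set Y).Nonempty) (a : Γ(Y, Y.basicOpen g)),
      ∃ b, G.γ _ h b = δ (G.γ _ h a) := by
    intro g h a
    have loc := aff.isLocalization_basicOpen g
    obtain ⟨⟨b, u⟩, e⟩ := IsLocalization.surj (Submonoid.powers g) a
    obtain ⟨u', hu⟩ := (IsLocalization.map_units Γ(Y, Y.basicOpen g) u).exists_right_inv
    obtain ⟨b₁, hb⟩ := hδ b
    obtain ⟨u₁, hu₁⟩ := hδ u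
    have e1 : G.γ _ h a * G.γ W hW u = G.γ W hW b := by
      rw [← G.res (Y.basicOpen_le g) h, ← G.res (Y.basicOpen_le g) h, ← map_mul]
      exact congrArg _ e
    have e2 : G.γ W hW u * G.γ _ h u' = 1 := by
      rw [← G.res (Y.basicOpen_le g) h, ← map_mul, ← map_one (G.γ _ h)]
      exact congrArg _ hu
    refine ⟨(rres (Y.basicOpen_le g) b₁ - a * rres (Y.basicOpen_le g) u₁) * u', ?_⟩
    rw [map_mul, map_sub, map_mul, G.res _ h hW, G.res _ h hW, hb, hu₁, ← e1, δ.leibniz,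
      smul_eq_mul, smul_eq_mul]
    linear_combination δ (G.γ _ h a) * e2
  let ι := {g : Γ(Y, W) // Y.basicOpen g ≤ V ∧ (Y.basicOpen g : Set Y).Nonempty}
  choose b hb using fun g : ι => key g.1 g.2.2 (rres g.2.1 a)
  have hc : V ≤ ⨆ g : ι, Y.basicOpen g.1 := fun x hx => by
    obtain ⟨g, h1, h2⟩ := aff.exists_basicOpen_le ⟨x, hx⟩ (i hx)
    exact Opens.mem_iSup.2 ⟨⟨g, h1, x, h2⟩, h2⟩
  obtain ⟨t, ht⟩ := fun_glue (fun g : ι => Y.basicOpen g.1) (fun g => g.2.1) hc b fun g g' =>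
    G.ext_γ _ _ fun h => by
      obtain ⟨x, hx⟩ := g.2.2
      rw [G.res _ h g.2.2, G.res _ h g'.2.2, hb, hb, G.res _ _ ⟨x, g.2.1 hx⟩,
        G.res _ _ ⟨x, g.2.1 hx⟩]
  refine ⟨t, fun h => ?_⟩
  obtain ⟨x, hx⟩ := id h
  obtain ⟨g, -⟩ := Opens.mem_iSup.1 (hc hx)
  rw [← G.res g.2.1 g.2.2, ht, hb, G.res]

theorem exists_toDer {W : Y.Opens} (hW : (W : Set Y).Nonempty) (aff : IsAffineOpen W)
    (δ : Derivation k K K) (hδ : ∀ a, ∃ b, G.γ W hW b = δ (G.γ W hW a)) :
    ∃ D : vfields f W, G.toDer hW D = δ := by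
  choose b hb using fun (V : Y.Opens) (i : V ≤ W) => G.exists_lift hW aff δ hδ i
  refine ⟨⟨fun V => AddMonoidHom.mk' (b V.1 V.2) fun x y => G.ext_γ _ _ fun h => ?_,
    fun V i x y => G.ext_γ _ _ fun h => ?_, fun V i c => G.ext_γ _ _ fun h => ?_,
    fun V V' i j x => G.ext_γ _ _ fun h => ?_⟩, Derivation.ext fun x => ?_⟩
  · simp only [map_add, hb]
  · simp only [AddMonoidHom.mk'_apply, map_add, map_mul, hb, δ.leibniz, smul_eq_mul]
  · simp only [AddMonoidHom.mk'_apply, hb, G.const, δ.map_algebraMap, map_zero]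
  · simp only [AddMonoidHom.mk'_apply, hb, G.res j h (h.mono j)]
  · obtain ⟨V, j, h, a, -, rfl, -⟩ := G.surj₂ hW x x
    rw [G.toDer_γ hW _ j]
    exact hb V j a h

end Gen

/-- The sheaf of all functions with values in an abelian group. -/
def funSheaf (Y : Scheme.{0}) (D : Type) [AddCommGroup D] : TopCat.Sheaf AddCommGrpCat.{0} Y :=
  ⟨{ obj V := .of (V.unop → D)
     map i := AddCommGrpCat.ofHom (AddMonoidHom.mk' (fun g x => g ⟨x.1, i.unop.le x.2⟩)
       fun _ _ => rfl) }, (TopCat.Presheaf.isSheaf_iff_isSheafUniqueGluing _).2 fun ι W s hs => by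
    choose i hi using fun x : (iSup W : Y.Opens) => Opens.mem_iSup.1 x.2
    refine ⟨fun x => s (i x) ⟨x.1, hi x⟩, fun j => funext fun x => ?_, fun t ht => funext fun x => ?_⟩
    · exact congrFun (hs _ j) ⟨x.1, hi ⟨x.1, le_iSup W j x.2⟩, x.2⟩
    · exact congrFun (ht (i x)) ⟨x.1, hi x⟩⟩

namespace Gen

variable {f : Y ⟶ Spec (.of k)} {K : Type} [Field K] [Algebra k K] (G : Gen f K)

/-- The embedding of the tangent sheaf in a sheaf of functions. -/
noncomputable def emb : tangentSheaf f ⟶ funSheaf Y (Derivation k K K) :=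
  ⟨{ app V := AddCommGrpCat.ofHom (AddMonoidHom.mk'
        (fun (D : vfields f V.unop) (x : V.unop) => G.toDer ⟨x.1, x.2⟩ D)
        fun D E => funext fun _ => map_add _ D E)
     naturality V V' i := by
        ext D
        exact funext fun x => G.toDer_vres i.unop.le ⟨x.1, i.unop.le x.2⟩ ⟨x.1, x.2⟩ D }⟩

theorem mono_emb : Mono G.emb := by
  have : ∀ V, Mono (G.emb.hom.app V) := fun V => by
    rw [AddCommGrpCat.mono_iff_injective]
    intro D E h
    exact G.ext_toDer D E fun hV => by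
      obtain ⟨x, hx⟩ := id hV
      exact congrFun h ⟨x, hx⟩
  have : Mono G.emb.hom := NatTrans.mono_of_mono_app _
  exact (TopCat.Sheaf.forget _ _).mono_of_mono_map this

theorem h1_of_subsingleton {ι : Type} (i₀ : ι) (U : ι → Y.Opens) (hU : iSup U = ⊤)
    (ne : ∀ i, (U i : Set Y).Nonempty) (aff : ∀ i j, IsAffineOpen (U i ⊓ U j))
    (A : ι → Subalgebra k K) (hA : ∀ i x, x ∈ A i ↔ ∃ a, G.γ _ (ne i) a = x)
    (hAA : ∀ i j x, x ∈ A i ⊔ A j ↔ ∃ a, G.γ _ (G.inter (ne i) (ne j)) a = x)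
    [Subsingleton (Sheaf.H (tangentSheaf f) 1)] : H1 tang A := by
  intro c hc hcc
  have := G.mono_emb
  let S := ShortComplex.mk G.emb (cokernel.π G.emb) (cokernel.condition _)
  have hS : S.ShortExact := { exact := ShortComplex.exact_cokernel _ }
  let g : ∀ i, S.X₂.obj.obj (op (U i)) := fun i _ => c i₀ i
  have hz : ∀ V D, S.g.hom.app V (S.f.hom.app V D) = 0 := fun V D => congr(($(S.zero)).hom.app V D)
  have nat : ∀ {V V' : Y.Opens} (i : V' ⟶ V) s, S.X₃.obj.map i.op (S.g.hom.app (op V) s) =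
      S.g.hom.app (op V') (S.X₂.obj.map i.op s) :=
    fun i s => congr($(S.g.hom.naturality i.op) s).symm
  obtain ⟨q, hq, -⟩ := TopCat.Sheaf.existsUnique_gluing' S.X₃ U ⊤ (fun _ => homOfLE le_top) hU.ge
    (fun i => S.g.hom.app _ (g i)) fun i j => by
      obtain ⟨D, hD⟩ := G.exists_toDer (G.inter (ne i) (ne j)) (aff i j) (c i j) fun a =>
        (hAA i j _).1 (hc i j _ ((hAA i j _).2 ⟨a, rfl⟩))
      rw [nat, nat, eq_comm, ← sub_eq_zero, ← map_sub, ← hz _ D]
      refine congrArg _ (funext fun x => ?_)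
      change c i₀ j - c i₀ i = G.toDer _ D
      rw [hD, eq_comm, ← sub_eq_zero, ← hcc i₀ i j]
      abel
  obtain ⟨x, hx⟩ := Abelian.Ext.covariant_sequence_exact₃ _ hS
    ((Sheaf.H.equiv₀ S.X₃ isTerminalTop).symm q) (zero_add 1)
    (Subsingleton.elim (α := Sheaf.H (tangentSheaf f) 1) _ _)
  have hx' : S.g.hom.app _ (Sheaf.H.equiv₀ S.X₂ isTerminalTop x) = q :=
    (Sheaf.H.equiv₀_naturality isTerminalTop S.g x).trans
      ((congrArg (Sheaf.H.equiv₀ S.X₃ isTerminalTop) hx).trans (AddEquiv.apply_symm_apply _ q))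
  generalize Sheaf.H.equiv₀ S.X₂ isTerminalTop x = g₀ at hx'
  have hb : ∀ i, ∃ b, S.f.hom.app (op (U i)) b = g i - S.X₂.obj.map (homOfLE le_top).op g₀ :=
    fun i => TopCat.Sheaf.sections_exact_of_left_exact hS.exact hS.mono_f _ (by
      rw [map_sub, ← nat, hx', hq, sub_self])
  choose b hb using hb
  refine ⟨fun i => G.toDer (ne i) (b i), fun i x hx => ?_, fun i j => ?_⟩
  · obtain ⟨a, rfl⟩ := (hA i x).1 hx
    exact (hA i _).2 ⟨_, (G.toDer_γ (ne i) (b i) le_rfl (ne i) a).symm⟩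
  · obtain ⟨y, hi, hj⟩ := G.inter (ne i) (ne j)
    have e1 : G.toDer (ne i) (b i) = c i₀ i - g₀ ⟨y, trivial⟩ := congrFun (hb i) ⟨y, hi⟩
    have e2 : G.toDer (ne j) (b j) = c i₀ j - g₀ ⟨y, trivial⟩ := congrFun (hb j) ⟨y, hj⟩
    change _ = G.toDer (ne j) (b j) - G.toDer (ne i) (b i)
    rw [e1, e2, ← sub_eq_zero, ← hcc i₀ i j]
    abel

end Gen

end Pool.Agent.Lib.MP_cd184e_ag.B
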