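import Pool.Agent.Lib.MP_cd184e_ag.B.Loc

/-! Morphisms of sheaves of modules from their values on a family of affine opens. -/

set_option autoImplicit false

namespace Pool.Agent.Lib.MP_cd184e_ag.B

open CategoryTheory AlgebraicGeometry Opposite TopologicalSpace

variable {X : Scheme.{0}}

/-- A morphism from a compatible family of linear maps. -/
noncomputable def mkHom {M N : X.Modules} (ψ : ∀ V : X.Opens, Γ(M, V) →ₗ[Γ(X, V)] Γ(N, V))
    (nat : ∀ (V W : X.Opens) (h : W ≤ V) (m : Γ(M, V)), mres N h (ψ V m) = ψ W (mres M h m)) :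
    M ⟶ N :=
  ⟨{ app V := ModuleCat.ofHom (ψ V.unop)
     naturality {V W} i := by
       ext m
       exact (nat V.unop W.unop i.unop.le m).symm }⟩

theorem mkHom_app {M N : X.Modules} (ψ : ∀ V : X.Opens, Γ(M, V) →ₗ[Γ(X, V)] Γ(N, V))
    (nat : ∀ (V W : X.Opens) (h : W ≤ V) (m : Γ(M, V)), mres N h (ψ V m) = ψ W (mres M h m))
    (V : X.Opens) (m : Γ(M, V)) : (mkHom ψ nat).app V m = ψ V m := rfl

/-- The sections of `N` over `V` are the sections over `V ⊓ W`. -/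
def Conc (N : X.Modules) (W : X.Opens) : Prop :=
  ∀ V : X.Opens, Function.Bijective (mres N (inf_le_left : V ⊓ W ≤ V))

theorem bijective_mres_of_eq (N : X.Modules) {V W : X.Opens} (h : W ≤ V) (e : W = V) :
    Function.Bijective (mres N h) := by
  subst e
  have : ⇑(mres N h) = id := funext (mres_self N h)
  rw [this]
  exact Function.bijective_id

theorem conc_top (N : X.Modules) {W : X.Opens} (h : W = ⊤) : Conc N W :=
  fun V => bijective_mres_of_eq N _ (by rw [h, inf_top_eq])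

theorem Conc.bij {N : X.Modules} {W : X.Opens} (hN : Conc N W) {V V' : X.Opens} (h : V' ≤ V)
    (e : V ⊓ W ≤ V') : Function.Bijective (mres N h) := by
  have e' : V' ⊓ W ≤ V ⊓ W := inf_le_inf_right _ h
  have h1 : mres N (inf_le_left : V' ⊓ W ≤ V') ∘ mres N h =
      mres N e' ∘ mres N (inf_le_left : V ⊓ W ≤ V) := by
    funext x
    simp
  have h2 := (bijective_mres_of_eq N e' (le_antisymm e' (le_inf e inf_le_right))).comp (hN V)
  rw [← h1] at h2
  exact (Function.Bijective.of_comp_iff' (hN V') _).1 h2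

theorem Conc.mono {N : X.Modules} {W W' : X.Opens} (hN : Conc N W) (h : W ≤ W') : Conc N W' :=
  fun _ => hN.bij _ (inf_le_inf_left _ h)

theorem Conc.ext {N : X.Modules} {W : X.Opens} (hN : Conc N W) {V : X.Opens} (s t : Γ(N, V))
    (h : ∀ x ∈ V, x ∈ W → ∃ (V' : X.Opens) (hV : V' ≤ V), x ∈ V' ∧ mres N hV s = mres N hV t) :
    s = t := by
  refine (hN V).1 (sec_ext N _ _ fun x hx => ?_)
  obtain ⟨V', hV, hx', e⟩ := h x hx.1 hx.2
  refine ⟨V' ⊓ W, inf_le_inf_right _ hV, ⟨hx', hx.2⟩, ?_⟩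
  have := congrArg (mres N (inf_le_left : V' ⊓ W ≤ V')) e
  simpa using this

theorem smul_cancel {N : X.Modules} {W : X.Opens} {u : Γ(X, W)} (hu : IsUnit u) {n n' : Γ(N, W)}
    (h : u • n = u • n') : n = n' := by
  exact hu.smul_left_cancel.1 h

theorem exists_smul_eq {N : X.Modules} {W : X.Opens} {u : Γ(X, W)} (hu : IsUnit u) (n : Γ(N, W)) :
    ∃ n', u • n' = n := by
  obtain ⟨v, rfl⟩ := hu
  exact ⟨((v⁻¹ : Γ(X, W)ˣ) : Γ(X, W)) • n, by rw [← mul_smul]; simp⟩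

variable {I : Type} (U : I → X.Opens) {M N : X.Modules}

theorem hom_ext_of_loc (hU : ∀ s, IsAffineOpen (U s)) (hM : ∀ s, LocAt M (U s))
    (hN : Conc N (iSup U)) (φ ψ : M ⟶ N) (h : ∀ s m, φ.app (U s) m = ψ.app (U s) m) : φ = ψ := by
  refine Scheme.Modules.hom_ext _ _ fun V => ?_
  ext m
  refine hN.ext _ _ fun x hx hx' => ?_
  obtain ⟨s, hs⟩ := Opens.mem_iSup.1 hx'
  obtain ⟨g, hg, hxg⟩ := (hU s).exists_basicOpen_le (V := V) ⟨x, hx⟩ hs
  obtain ⟨n, t, ht⟩ := (hM s).ex g _ (X.basicOpen_le g) rfl (mres M hg m)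
  refine ⟨_, hg, hxg, smul_cancel ((isUnit_rres g (X.basicOpen_le g) le_rfl).pow n) ?_⟩
  change _ • mres N hg (φ.app V m) = _ • mres N hg (ψ.app V m)
  rw [mres_app, mres_app, ← Scheme.Modules.Hom.app_smul, ← Scheme.Modules.Hom.app_smul, ← ht,
    ← mres_app, ← mres_app, h]

variable (φ : ∀ s, Γ(M, U s) →ₗ[Γ(X, U s)] Γ(N, U s))

/-- `n` is the image of `m`, computed with a denominator from the chart `s`. -/
def Near (s : I) (W : X.Opens) (m : Γ(M, W)) (n : Γ(N, W)) : Prop :=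
  ∃ (h : W ≤ U s) (u : Γ(X, U s)) (t : Γ(M, U s)), IsUnit (rres h u) ∧
    mres M h t = rres h u • m ∧ mres N h (φ s t) = rres h u • n

variable {U φ}

theorem Near.res {s : I} {W W' : X.Opens} {m : Γ(M, W)} {n : Γ(N, W)} (H : Near U φ s W m n)
    (h' : W' ≤ W) : Near U φ s W' (mres M h' m) (mres N h' n) := by
  obtain ⟨h, u, t, hu, e₁, e₂⟩ := H
  refine ⟨h'.trans h, u, t, ?_, ?_, ?_⟩
  · rw [← rres_rres h h']
    exact hu.map _
  · rw [← mres_mres M h h', e₁, mres_smul, rres_rres]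
  · rw [← mres_mres N h h', e₂, mres_smul, rres_rres]

theorem Near.unique {s : I} (hU : IsAffineOpen (U s)) (hM : LocAt M (U s)) {W : X.Opens}
    {m : Γ(M, W)} {n n' : Γ(N, W)} (H : Near U φ s W m n) (H' : Near U φ s W m n') : n = n' := by
  refine sec_ext N _ _ fun x hx => ?_
  obtain ⟨g, hg, hxg⟩ := hU.exists_basicOpen_le (V := W) ⟨x, hx⟩ (H.1 hx)
  obtain ⟨h, u, t, hu, e₁, e₂⟩ := H.res hg
  obtain ⟨h', u', t', hu', e₁', e₂'⟩ := H'.res hg
  obtain ⟨k, hk⟩ := hM.un g _ h rfl (u' • t - u • t') (by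
    rw [map_sub, mres_smul, mres_smul, e₁, e₁', smul_comm, sub_self])
  have h1 := congrArg (fun z => mres N h (φ s z)) hk
  simp only [map_smul, map_sub, mres_smul, map_zero, map_pow, e₂, e₂'] at h1
  refine ⟨_, hg, hxg, smul_cancel (((isUnit_rres g h le_rfl).pow k).mul (hu'.mul hu)) ?_⟩
  rw [smul_sub, sub_eq_zero, ← mul_smul, ← mul_smul, ← mul_smul, ← mul_smul, mul_assoc,
    mul_assoc, mul_comm (rres h u)] at h1
  exact h1

theorem Near.add {s : I} {W : X.Opens} {m m' : Γ(M, W)} {n n' : Γ(N, W)} (H : Near U φ s W m n)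
    (H' : Near U φ s W m' n') : Near U φ s W (m + m') (n + n') := by
  obtain ⟨h, u, t, hu, e₁, e₂⟩ := H
  obtain ⟨h', u', t', hu', e₁', e₂'⟩ := H'
  refine ⟨h, u * u', u' • t + u • t', by rw [map_mul]; exact hu.mul hu', ?_, ?_⟩
  · rw [map_add, mres_smul, mres_smul, e₁, e₁', map_mul, smul_add, mul_smul, mul_smul,
      smul_comm (rres h u')]
  · rw [map_add, map_smul, map_smul, map_add, mres_smul, mres_smul, e₂, e₂', map_mul, smul_add,
      mul_smul, mul_smul, smul_comm (rres h u')]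

theorem Near.smul {s : I} {W : X.Opens} {m : Γ(M, W)} {n : Γ(N, W)} (H : Near U φ s W m n)
    (r : Γ(X, W)) (a v : Γ(X, U s)) (hv : IsUnit (rres H.1 v)) (e : r * rres H.1 v = rres H.1 a) :
    Near U φ s W (r • m) (r • n) := by
  obtain ⟨h, u, t, hu, e₁, e₂⟩ := H
  refine ⟨h, u * v, a • t, by rw [map_mul]; exact hu.mul hv, ?_, ?_⟩
  · rw [mres_smul, e₁, ← e, map_mul, ← mul_smul, ← mul_smul]
    congr 1
    ring
  · rw [map_smul, mres_smul, e₂, ← e, map_mul, ← mul_smul, ← mul_smul]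
    congr 1
    ring

theorem exists_near {s : I} (hM : LocAt M (U s)) (g : Γ(X, U s)) (m : Γ(M, X.basicOpen g)) :
    ∃ n, Near U φ s (X.basicOpen g) m n := by
  obtain ⟨k, t, ht⟩ := hM.ex g _ (X.basicOpen_le g) rfl m
  have hu := (isUnit_rres g (X.basicOpen_le g) le_rfl).pow k
  obtain ⟨n, hn⟩ := exists_smul_eq hu (mres N (X.basicOpen_le g) (φ s t))
  exact ⟨n, X.basicOpen_le g, g ^ k, t, by rwa [map_pow], by rwa [map_pow],
    by rw [map_pow, hn]⟩

/-- The maps on the charts `s` and `t` agree on a chart `u` equal to the intersection. -/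
def Compat (U : I → X.Opens) (φ : ∀ s, Γ(M, U s) →ₗ[Γ(X, U s)] Γ(N, U s)) : Prop :=
  ∀ s t, ∃ (u : I) (hs : U u ≤ U s) (ht : U u ≤ U t), U s ⊓ U t ≤ U u ∧
    (∀ m, mres N hs (φ s m) = φ u (mres M hs m)) ∧ ∀ m, mres N ht (φ t m) = φ u (mres M ht m)

theorem Near.up {s u : I} {W : X.Opens} {m : Γ(M, W)} {n : Γ(N, W)} (H : Near U φ s W m n)
    (hs : U u ≤ U s) (hW : W ≤ U u) (nat : ∀ m, mres N hs (φ s m) = φ u (mres M hs m)) :
    Near U φ u W m n := by
  obtain ⟨h, v, t, hv, e₁, e₂⟩ := H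
  refine ⟨hW, rres hs v, mres M hs t, by rwa [rres_rres], by rwa [mres_mres, rres_rres], ?_⟩
  rwa [← nat, mres_mres, rres_rres]

theorem Near.unique' (hU : ∀ s, IsAffineOpen (U s)) (hM : ∀ s, LocAt M (U s)) (hc : Compat U φ)
    {s t : I} {W : X.Opens} {m : Γ(M, W)} {n n' : Γ(N, W)} (H : Near U φ s W m n)
    (H' : Near U φ t W m n') : n = n' := by
  obtain ⟨u, hs, ht, hu, n₁, n₂⟩ := hc s t
  have hW := (le_inf H.1 H'.1).trans hu
  exact (H.up hs hW n₁).unique (hU u) (hM u) (H'.up ht hW n₂)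

/-- `n` is locally the image of `m`. -/
def Rel (U : I → X.Opens) (φ : ∀ s, Γ(M, U s) →ₗ[Γ(X, U s)] Γ(N, U s)) (V : X.Opens)
    (m : Γ(M, V)) (n : Γ(N, V)) : Prop :=
  ∀ (s : I) (g : Γ(X, U s)) (h : X.basicOpen g ≤ V),
    Near U φ s (X.basicOpen g) (mres M h m) (mres N h n)

theorem Rel.unique (hU : ∀ s, IsAffineOpen (U s)) (hM : ∀ s, LocAt M (U s))
    (hN : Conc N (iSup U)) {V : X.Opens} {m : Γ(M, V)} {n n' : Γ(N, V)} (H : Rel U φ V m n)
    (H' : Rel U φ V m n') : n = n' := by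
  refine hN.ext _ _ fun x hx hx' => ?_
  obtain ⟨s, hs⟩ := Opens.mem_iSup.1 hx'
  obtain ⟨g, hg, hxg⟩ := (hU s).exists_basicOpen_le (V := V) ⟨x, hx⟩ hs
  exact ⟨_, hg, hxg, (H s g hg).unique (hU s) (hM s) (H' s g hg)⟩

theorem exists_rel (hU : ∀ s, IsAffineOpen (U s)) (hM : ∀ s, LocAt M (U s))
    (hN : Conc N (iSup U)) (hc : Compat U φ) {V : X.Opens} (m : Γ(M, V)) :
    ∃ n, Rel U φ V m n := by
  let κ : Type := {p : Σ s, Γ(X, U s) // X.basicOpen p.2 ≤ V}
  choose n hn using fun p : κ => exists_near (φ := φ) (hM p.1.1) p.1.2 (mres M p.2 m)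
  have hle : ∀ p : κ, X.basicOpen p.1.2 ≤ V ⊓ iSup U := fun p =>
    le_inf p.2 ((X.basicOpen_le _).trans (le_iSup U _))
  obtain ⟨t, ht⟩ := sec_glue N (U := V ⊓ iSup U) (fun p : κ => X.basicOpen p.1.2) hle (by
      intro x hx
      obtain ⟨s, hs⟩ := Opens.mem_iSup.1 hx.2
      obtain ⟨g, hg, hxg⟩ := (hU s).exists_basicOpen_le (V := V) ⟨x, hx.1⟩ hs
      exact Opens.mem_iSup.2 ⟨⟨⟨s, g⟩, hg⟩, hxg⟩) n (by
      intro p q
      have h1 := (hn p).res (inf_le_left : X.basicOpen p.1.2 ⊓ X.basicOpen q.1.2 ≤ _)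
      have h2 := (hn q).res (inf_le_right : X.basicOpen p.1.2 ⊓ X.basicOpen q.1.2 ≤ _)
      rw [mres_mres] at h1 h2
      exact h1.unique' hU hM hc h2)
  obtain ⟨t', rfl⟩ := (hN V).2 t
  refine ⟨t', fun s g h => ?_⟩
  have := ht ⟨⟨s, g⟩, h⟩
  rw [mres_mres] at this
  exact this ▸ hn ⟨⟨s, g⟩, h⟩

theorem exists_hom (hU : ∀ s, IsAffineOpen (U s)) (hM : ∀ s, LocAt M (U s))
    (hN : Conc N (iSup U)) (hc : Compat U φ) :
    ∃ ψ : M ⟶ N, ∀ s m, ψ.app (U s) m = φ s m := by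
  choose ψ hψ using fun (V : X.Opens) (m : Γ(M, V)) => exists_rel hU hM hN hc m
  refine ⟨mkHom (fun V => ⟨⟨ψ V, fun m m' => ?_⟩, fun r m => ?_⟩) fun V W h m => ?_,
    fun s m => ?_⟩
  · refine (hψ V _).unique hU hM hN fun s g h => ?_
    rw [map_add, map_add]
    exact (hψ V m s g h).add (hψ V m' s g h)
  · refine (hψ V _).unique hU hM hN fun s g h => ?_
    have loc := (hU s).isLocalization_basicOpen g
    obtain ⟨⟨a, ⟨_, l, rfl⟩⟩, ha⟩ := IsLocalization.surj (Submonoid.powers g) (rres h r)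
    rw [RingHom.id_apply, mres_smul, mres_smul]
    refine (hψ V m s g h).smul _ a (g ^ l) ?_ ha
    rw [map_pow]
    exact (isUnit_rres g _ le_rfl).pow l
  · refine Rel.unique hU hM hN (fun s g h' => ?_) (hψ W _)
    rw [mres_mres, mres_mres]
    exact hψ V m s g _
  · refine (hψ _ m).unique hU hM hN fun t g h => ?_
    obtain ⟨n, hn⟩ := exists_near (φ := φ) (hM t) g (mres M h m)
    have h2 : Near U φ s (X.basicOpen g) (mres M h m) (mres N h (φ s m)) :=
      ⟨h, 1, m, by simp, by simp, by simp⟩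
    rwa [hn.unique' hU hM hc h2] at hn

end Pool.Agent.Lib.MP_cd184e_ag.B
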