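import Pool.Agent.Lib.MP_cd184e_ag.B.Fin
import Pool.Agent.Lib.MP_cd184e_ag.B.Glue

/-! The direct image of the sheaf associated with a module over an affine open. -/

set_option autoImplicit false

namespace Pool.Agent.Lib.MP_cd184e_ag.B

open CategoryTheory AlgebraicGeometry Opposite TopologicalSpace Limits

variable {X : Scheme.{0}}

set_option backward.isDefEq.respectTransparency false in
theorem exists_push {U : X.Opens} (hU : IsAffineOpen U) (N : Type) [AddCommGroup N]
    [Module Γ(X, U) N] :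
    ∃ P : X.Modules, Nonempty (N ≃ₗ[Γ(X, U)] Γ(P, U)) ∧ LocAt P U ∧ Conc P U := by
  let T := tilde (ModuleCat.of Γ(X, U) N)
  let P := (Scheme.Modules.pushforward hU.fromSpec).obj T
  let i : P.restrict hU.fromSpec ≅ T :=
    (Scheme.Modules.restrictFunctorAdjCounitIso hU.fromSpec).app T
  refine ⟨P, ⟨?_⟩, ?_, fun V => ?_⟩
  · exact ((tilde.isoTop (ModuleCat.of Γ(X, U) N)) ≪≫
      (moduleSpecΓFunctor (R := Γ(X, U))).mapIso i.symm).toLinearEquiv ≪≫ₗ topEquiv P hU
  · rw [locAt_iff P hU, isIso_fromTildeΓ_iff]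
    exact ⟨_, ⟨i.symm⟩⟩
  · refine bijective_mres_of_eq T (V := hU.fromSpec ⁻¹ᵁ V) (W := hU.fromSpec ⁻¹ᵁ (V ⊓ U))
      (hU.fromSpec.preimage_mono inf_le_left) ?_
    rw [Scheme.Hom.preimage_inf, hU.fromSpec_preimage_self, inf_top_eq]

/-- Sections of a limit of sheaves of modules. -/
theorem limit_sections {J : Type} [SmallCategory J] (F : J ⥤ X.Modules) (V : X.Opens) :
    (∀ x y : Γ(limit F, V), (∀ j, (limit.π F j).app V x = (limit.π F j).app V y) → x = y) ∧
    ∀ q : ∀ j, Γ(F.obj j, V), (∀ {i j : J} (f : i ⟶ j), (F.map f).app V (q i) = q j) →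
      ∃ x : Γ(limit F, V), ∀ j, (limit.π F j).app V x = q j := by
  let G : X.Modules ⥤ Type := Scheme.Modules.toPresheaf X ⋙ (evaluation _ _).obj (op V) ⋙ forget Ab
  have h1 : PreservesLimit F G := by
    have : PreservesLimits ((evaluation (X.Opens)ᵒᵖ Ab.{0}).obj (op V) ⋙ forget Ab.{0}) :=
      comp_preservesLimits _ _
    have : PreservesLimits G := comp_preservesLimits _ _
    infer_instance
  have hG : IsLimit (G.mapCone (limit.cone F)) := isLimitOfPreserves G (limit.isLimit F)
  refine ⟨fun x y h => (Types.isLimitEquivSections hG).injective (Subtype.ext (funext h)),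
    fun q hq => ?_⟩
  obtain ⟨x, hx⟩ := (Types.isLimitEquivSections hG).surjective ⟨q, hq⟩
  exact ⟨x, fun j => congrFun (congrArg Subtype.val hx) j⟩

end Pool.Agent.Lib.MP_cd184e_ag.B
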