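import Pool.Agent.Lib.MP_cd184e_ag.B.Loc

/-! Quasi-coherence over an affine open in terms of sections. -/

set_option autoImplicit false

namespace Pool.Agent.Lib.MP_cd184e_ag.B

open CategoryTheory AlgebraicGeometry Opposite TopologicalSpace

variable {X : Scheme.{0}}

theorem image_top {U : X.Opens} (hU : IsAffineOpen U) : hU.fromSpec ''ᵁ ⊤ = U := by
  rw [Scheme.Hom.image_top_eq_opensRange, hU.opensRange_fromSpec]

theorem image_le {U : X.Opens} (hU : IsAffineOpen U) (V : (Spec Γ(X, U)).Opens) :
    hU.fromSpec ''ᵁ V ≤ U :=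
  (hU.fromSpec.image_mono le_top).trans (image_top hU).le

set_option backward.isDefEq.respectTransparency false in
/-- The action of `Γ(X, U)` on the sections of the restriction of `M` to `Spec Γ(X, U)`. -/
theorem smul_restrict (M : X.Modules) {U : X.Opens} (hU : IsAffineOpen U)
    (V : (Spec Γ(X, U)).Opens) (r : Γ(X, U)) (s : Γ(M.restrict hU.fromSpec, V)) :
    (M.restrictAppIso hU.fromSpec V).hom (r • s) =
      rres (image_le hU V) r • (M.restrictAppIso hU.fromSpec V).hom s := by
  rw [Scheme.Modules.smul_Spec_def, Scheme.Modules.smul_restrictAppIso_hom_apply]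
  congr 1
  have : (Scheme.ΓSpecIso Γ(X, U)).inv ≫ (Spec Γ(X, U)).presheaf.map V.leTop.op ≫
      (hU.fromSpec.appIso V).inv = X.presheaf.map (homOfLE (image_le hU V)).op := by
    rw [← Category.assoc, Iso.comp_inv_eq, Scheme.Hom.appIso_hom']
    rw [Scheme.Hom.map_appLE, Scheme.Hom.appLE, hU.fromSpec_app_self, Category.assoc,
      ← Functor.map_comp]
    rfl
  exact congr($this r)

set_option backward.isDefEq.respectTransparency false in
theorem locAt_iff (M : X.Modules) {U : X.Opens} (hU : IsAffineOpen U) :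
    LocAt M U ↔ IsIso (M.restrict hU.fromSpec).fromTildeΓ := by
  rw [isIso_fromTildeΓ_iff_isLocalizing]
  have hT : U ≤ hU.fromSpec ''ᵁ ⊤ := (image_top hU).ge
  constructor
  · intro h f
    refine ⟨fun s => ?_, fun y => ?_, fun {x₁ x₂} e => ?_⟩
    · obtain ⟨_, n, rfl⟩ := s
      rw [map_pow]
      exact ((M.restrict hU.fromSpec).isUnit_algebraMap_end_of_le_basicOpen f le_rfl).pow n
    · obtain ⟨n, t, ht⟩ := h.ex f _ (image_le hU _) (hU.fromSpec_image_basicOpen f)
        ((M.restrictAppIso hU.fromSpec _).hom y)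
      refine ⟨⟨(M.restrictAppIso hU.fromSpec ⊤).inv (mres M (image_le hU ⊤) t), ⟨_, n, rfl⟩⟩, ?_⟩
      have := smul_restrict M hU (PrimeSpectrum.basicOpen f) (f ^ n) y
      rw [map_pow, ← ht] at this
      refine this.trans ?_
      exact (mres_mres M (image_le hU ⊤) (hU.fromSpec.image_mono le_top) t).symm
    · obtain ⟨n, hn⟩ := h.un f _ (image_le hU _) (hU.fromSpec_image_basicOpen f)
        (mres M hT ((M.restrictAppIso hU.fromSpec ⊤).hom (x₁ - x₂))) (by
          rw [mres_mres]
          have e' := sub_eq_zero.2 e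
          rw [← map_sub] at e'
          exact e')
      refine ⟨⟨_, n, rfl⟩, ?_⟩
      have h2 := congrArg (mres M (image_le hU ⊤)) hn
      rw [mres_smul, mres_mres, mres_self, map_zero, ← smul_restrict] at h2
      have h3 : (f ^ n) • (x₁ - x₂) = 0 := h2
      rw [smul_sub, sub_eq_zero] at h3
      exact h3
  · intro h
    refine ⟨fun f W hW e s => ?_, fun f W hW e t ht => ?_⟩
    · have e' : hU.fromSpec ''ᵁ PrimeSpectrum.basicOpen f = W :=
        (hU.fromSpec_image_basicOpen f).trans e.symm
      subst e'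
      obtain ⟨⟨t, ⟨_, n, rfl⟩⟩, ht⟩ := (h f).surj
        ((M.restrictAppIso hU.fromSpec _).inv s)
      refine ⟨n, mres M hT ((M.restrictAppIso hU.fromSpec ⊤).hom t), ?_⟩
      rw [mres_mres, ← map_pow]
      have := smul_restrict M hU (PrimeSpectrum.basicOpen f) (f ^ n)
        ((M.restrictAppIso hU.fromSpec _).inv s)
      exact (this.symm.trans ht).symm
    · have e' : hU.fromSpec ''ᵁ PrimeSpectrum.basicOpen f = W :=
        (hU.fromSpec_image_basicOpen f).trans e.symm
      subst e'
      obtain ⟨⟨_, n, rfl⟩, hn⟩ := (h f).exists_of_eq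
        (x₁ := (M.restrictAppIso hU.fromSpec ⊤).inv (mres M (image_le hU ⊤) t)) (x₂ := 0) (by
          rw [map_zero]
          exact (mres_mres M (image_le hU ⊤) (hU.fromSpec.image_mono le_top) t).trans ht)
      refine ⟨n, ?_⟩
      have h1 := smul_restrict M hU ⊤ (f ^ n)
        ((M.restrictAppIso hU.fromSpec ⊤).inv (mres M (image_le hU ⊤) t))
      have h2 : rres (image_le hU ⊤) (f ^ n) • mres M (image_le hU ⊤) t = 0 := by
        refine h1.symm.trans ?_
        rw [smul_zero] at hn
        exact hn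
      have h3 := congrArg (mres M hT) h2
      rwa [← mres_smul, mres_mres, mres_self, map_zero] at h3

theorem locAt_of_qcoh (M : X.Modules) [M.IsQuasicoherent] {U : X.Opens} (hU : IsAffineOpen U) :
    LocAt M U :=
  (locAt_iff M hU).2 inferInstance

end Pool.Agent.Lib.MP_cd184e_ag.B
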