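import Pool.Agent.Lib.MP_cd184e_ag.T.Base

/-! The homogeneous coordinate ring of a projective variety given inside a field. -/

set_option autoImplicit false

namespace Pool.Agent.Lib.MP_cd184e_ag.B

open Pool.Agent.Lib.MP_cd184e_ag.T Polynomial HomogeneousLocalization

variable {k K : Type} [Field k] [Field K] [Algebra k K] (X : ProjVar k K)

/-- The linear system. -/
def lin : Submodule k K := Submodule.span k (Set.range X.f)

/-- The homogeneous coordinate ring, inside `K[t]`. -/
def hring : Subalgebra k K[X] where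
  carrier := {p | ∀ m, p.coeff m ∈ lin X ^ m}
  mul_mem' {p q} hp hq m := by
    rw [coeff_mul]
    refine Submodule.sum_mem _ fun c hc => ?_
    rw [← Finset.HasAntidiagonal.mem_antidiagonal.1 hc, pow_add]
    exact Submodule.mul_mem_mul (hp _) (hq _)
  add_mem' {p q} hp hq m := by
    rw [coeff_add]
    exact add_mem (hp m) (hq m)
  algebraMap_mem' c m := by
    rw [Polynomial.algebraMap_apply, coeff_C]
    split_ifs with h
    · subst h
      rw [pow_zero]
      exact Submodule.algebraMap_mem c
    · exact zero_mem _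

/-- The grading. -/
def grade (m : ℕ) : Submodule k (hring X) where
  carrier := {p | ∀ i, i ≠ m → p.1.coeff i = 0}
  add_mem' {p q} hp hq i hi := by
    rw [Subalgebra.coe_add, coeff_add, hp i hi, hq i hi, add_zero]
  zero_mem' i _ := rfl
  smul_mem' c p hp i hi := by
    rw [Subalgebra.coe_smul, coeff_smul, hp i hi, smul_zero]

variable {X}

/-- The homogeneous element `c t ^ m`. -/
noncomputable def mono (m : ℕ) (c : K) (hc : c ∈ lin X ^ m) : hring X :=
  ⟨monomial m c, fun i => by
    rw [coeff_monomial]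
    split_ifs with h
    · exact h ▸ hc
    · exact zero_mem _⟩

theorem mono_mem (m : ℕ) (c : K) (hc : c ∈ lin X ^ m) : mono m c hc ∈ grade X m :=
  fun _ hi => coeff_monomial_of_ne _ hi

theorem eq_monomial {m : ℕ} {p : hring X} (hp : p ∈ grade X m) :
    p.1 = monomial m (p.1.coeff m) := by
  ext i
  rw [coeff_monomial]
  split_ifs with h
  · rw [h]
  · exact hp i (Ne.symm h)

theorem sum_mono (p : hring X) : ∑ m ∈ p.1.support, mono m (p.1.coeff m) (p.2 m) = p := by
  apply Subtype.ext
  rw [AddSubmonoidClass.coe_finsetSum]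
  exact p.1.as_sum_support.symm

variable (X)

instance gradedMonoid : SetLike.GradedMonoid (grade X) where
  one_mem i hi := by
    rw [Subalgebra.coe_one, coeff_one, if_neg hi]
  mul_mem {i j p q} hp hq l hl := by
    rw [Subalgebra.coe_mul, eq_monomial hp, eq_monomial hq, monomial_mul_monomial,
      coeff_monomial_of_ne _ hl]

theorem coeff_coe (x : DirectSum ℕ fun m => grade X m) (i : ℕ) :
    (DirectSum.coeAddMonoidHom (grade X) x).1.coeff i = (x i).1.1.coeff i := by
  induction x using DirectSum.induction_on with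
  | zero => simp
  | of j y =>
    rw [DirectSum.coeAddMonoidHom_of]
    by_cases h : i = j
    · subst h
      rw [DirectSum.of_eq_same]
    · rw [DirectSum.of_eq_of_ne _ _ _ h, y.2 i h]
      rfl
  | add x y hx hy =>
    rw [map_add, Subalgebra.coe_add, coeff_add, hx, hy]
    simp

theorem isInternal : DirectSum.IsInternal (grade X) := by
  constructor
  · intro x y h
    refine DFinsupp.ext fun i => Subtype.ext (Subtype.ext ?_)
    rw [eq_monomial (x i).2, eq_monomial (y i).2, ← coeff_coe, ← coeff_coe, h]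
  · intro p
    rw [← sum_mono p]
    refine ⟨∑ m ∈ p.1.support, DirectSum.of (fun m => grade X m) m ⟨_, mono_mem m _ (p.2 m)⟩, ?_⟩
    rw [map_sum]
    simp only [DirectSum.coeAddMonoidHom_of]

noncomputable instance gradedAlgebra : GradedAlgebra (grade X) :=
  { gradedMonoid X, (isInternal X).chooseDecomposition with }

theorem f_mem (l : Fin X.n) : X.f l ∈ lin X ^ 1 := by
  rw [pow_one]
  exact Submodule.subset_span ⟨l, rfl⟩

/-- The homogeneous coordinates. -/
noncomputable def gen (l : Fin X.n) : hring X := mono 1 (X.f l) (f_mem X l)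

theorem gen_mem (l : Fin X.n) : gen X l ∈ grade X 1 := mono_mem _ _ _

theorem mono_one_mem {P : Submodule k (hring X)} {T : Set (Fin X.n)} (h : ∀ l ∈ T, gen X l ∈ P)
    {c : K} (hc : c ∈ Submodule.span k (X.f '' T)) : ∃ p ∈ P, p.1 = monomial 1 c := by
  induction hc using Submodule.span_induction with
  | mem x hx =>
    obtain ⟨l, hl, rfl⟩ := hx
    exact ⟨_, h l hl, rfl⟩
  | zero => exact ⟨0, zero_mem _, by simp⟩
  | add x y _ _ hx hy =>
    obtain ⟨p, hp, e⟩ := hx
    obtain ⟨q, hq, e'⟩ := hy
    exact ⟨p + q, add_mem hp hq, by rw [Subalgebra.coe_add, e, e', map_add]⟩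
  | smul a x _ hx =>
    obtain ⟨p, hp, e⟩ := hx
    exact ⟨a • p, P.smul_mem a hp, by rw [Subalgebra.coe_smul, e, smul_monomial]⟩

theorem adjoin_gen : Algebra.adjoin k (Set.range (gen X)) = ⊤ := by
  have key : ∀ (m : ℕ) (c : K), c ∈ lin X ^ m →
      ∃ p ∈ Algebra.adjoin k (Set.range (gen X)), p.1 = monomial m c := by
    intro m
    induction m with
    | zero =>
      intro c hc
      rw [pow_zero, Submodule.mem_one] at hc
      obtain ⟨a, rfl⟩ := hc
      exact ⟨algebraMap k _ a, Subalgebra.algebraMap_mem _ a, rfl⟩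
    | succ m ih =>
      intro c hc
      rw [pow_succ] at hc
      refine Submodule.mul_induction_on hc (fun x hx y hy => ?_) fun x y hx hy => ?_
      · obtain ⟨p, hp, e⟩ := ih x hx
        obtain ⟨q, hq, e'⟩ := mono_one_mem X
          (P := (Algebra.adjoin k (Set.range (gen X))).toSubmodule) (T := Set.univ)
          (fun l _ => Algebra.subset_adjoin ⟨l, rfl⟩) (c := y) (by rwa [Set.image_univ])
        exact ⟨p * q, mul_mem hp hq, by rw [Subalgebra.coe_mul, e, e', monomial_mul_monomial]⟩
      · obtain ⟨p, hp, e⟩ := hx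
        obtain ⟨q, hq, e'⟩ := hy
        exact ⟨p + q, add_mem hp hq, by rw [Subalgebra.coe_add, e, e', map_add]⟩
  rw [eq_top_iff]
  intro p _
  rw [← sum_mono p]
  refine Subalgebra.sum_mem _ fun m _ => ?_
  obtain ⟨q, hq, e⟩ := key m _ (p.2 m)
  have : mono m _ (p.2 m) = q := Subtype.ext e.symm
  rwa [this]

theorem gen_pow_mem (I : Ideal (hring X)) (hI : ∀ j ∈ X.J, gen X j ∈ I) (l : Fin X.n) :
    ∃ m, gen X l ^ m ∈ I := by
  obtain ⟨m, hm⟩ := X.cover l
  have key : ∃ p ∈ I, p.1 = monomial (1 + m) (X.f l ^ (m + 1)) := by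
    refine Submodule.mul_induction_on hm (fun x hx y hy => ?_) fun x y hx hy => ?_
    · have h1 : ∀ j ∈ (X.J : Set (Fin X.n)), gen X j ∈ I.restrictScalars k := fun j hj => hI j hj
      have h2 := mono_one_mem X h1 hx
      obtain ⟨p, hp, e⟩ := h2
      exact ⟨p * mono m y hy, I.mul_mem_right _ hp, by
        rw [Subalgebra.coe_mul, e]; exact monomial_mul_monomial _ _ _ _⟩
    · obtain ⟨p, hp, e⟩ := hx
      obtain ⟨q, hq, e'⟩ := hy
      exact ⟨p + q, add_mem hp hq, by rw [Subalgebra.coe_add, e, e', map_add]⟩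
  obtain ⟨p, hp, e⟩ := key
  refine ⟨m + 1, ?_⟩
  have : gen X l ^ (m + 1) = p := Subtype.ext (by
    rw [e, SubmonoidClass.coe_pow]
    change monomial 1 (X.f l) ^ (m + 1) = _
    rw [monomial_pow, one_mul, add_comm])
  rwa [this]

/-- Dehomogenisation. -/
noncomputable def ev : hring X →+* K := (evalRingHom 1).comp (hring X).val.toRingHom

theorem ev_eq {m : ℕ} {p : hring X} (hp : p ∈ grade X m) : ev X p = p.1.coeff m := by
  change eval 1 p.1 = _
  conv_lhs => rw [eq_monomial hp]
  simp

theorem ev_mem {m : ℕ} {p : hring X} (hp : p ∈ grade X m) : ev X p ∈ lin X ^ m :=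
  ev_eq X hp ▸ p.2 m

theorem eq_zero_of_ev {m : ℕ} {p : hring X} (hp : p ∈ grade X m) (h : ev X p = 0) : p = 0 :=
  Subtype.ext (by rw [eq_monomial hp, ← ev_eq X hp, h]; simp)

@[simp] theorem ev_gen (l : Fin X.n) : ev X (gen X l) = X.f l := by
  rw [ev_eq X (gen_mem X l)]
  exact coeff_monomial_same _ _

theorem ev_algebraMap (c : k) : ev X (algebraMap k _ c) = algebraMap k K c := by
  change eval 1 (algebraMap k K[X] c) = _
  simp

/-- The product of the coordinates of a set of charts. -/
noncomputable def prodGen (s : Finset (Fin X.n)) : hring X := ∏ j ∈ s, gen X j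

theorem prodGen_mem (s : Finset (Fin X.n)) : prodGen X s ∈ grade X s.card := by
  have := SetLike.prod_mem_graded (grade X) (F := s) (fun _ => 1) (gen X) fun j _ => gen_mem X j
  rwa [Finset.sum_const, smul_eq_mul, mul_one] at this

theorem ev_prodGen (s : Finset (Fin X.n)) : ev X (prodGen X s) = ∏ j ∈ s, X.f j := by
  simp [prodGen]

theorem ev_prodGen_ne (s : X.Idx) : ev X (prodGen X s.1) ≠ 0 := by
  rw [ev_prodGen]
  exact Finset.prod_ne_zero_iff.2 fun j hj => X.ne_of_mem hj

/-- Fractions of degree zero as elements of the field. -/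
noncomputable def toK (s : X.Idx) : Away (grade X) (prodGen X s.1) →+* K :=
  (IsLocalization.Away.lift (S := Localization.Away (prodGen X s.1)) (prodGen X s.1)
    (g := ev X) (ev_prodGen_ne X s).isUnit).comp (algebraMap _ _)

theorem toK_mk (s : X.Idx) (n : ℕ) (a : hring X) (ha : a ∈ grade X (n • s.1.card)) :
    toK X s (Away.mk _ (prodGen_mem X s.1) n a ha) = ev X a / ev X (prodGen X s.1) ^ n := by
  rw [toK, RingHom.comp_apply,
    HomogeneousLocalization.algebraMap_apply, Away.val_mk, Localization.mk_eq_mk',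
    IsLocalization.Away.lift, IsLocalization.lift_mk'_spec, map_pow,
    mul_div_cancel₀ _ (pow_ne_zero _ (ev_prodGen_ne X s))]

theorem toK_injective (s : X.Idx) : Function.Injective (toK X s) := by
  rw [injective_iff_map_eq_zero]
  intro z hz
  obtain ⟨n, a, ha, rfl⟩ := Away.mk_surjective _ (prodGen_mem X s.1) z
  rw [toK_mk, div_eq_zero_iff, or_iff_left (pow_ne_zero _ (ev_prodGen_ne X s))] at hz
  exact mk_eq_zero_of_num _ (Subtype.ext (eq_zero_of_ev X ha hz))

theorem div_pow_mem {s : Finset (Fin X.n)} {j : Fin X.n} (hj : j ∈ s) (m : ℕ) (c : K)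
    (hc : c ∈ lin X ^ m) : c / X.f j ^ m ∈ X.A s := by
  induction m generalizing c with
  | zero =>
    rw [pow_zero, Submodule.mem_one] at hc
    obtain ⟨a, rfl⟩ := hc
    rw [pow_zero, div_one]
    exact Subalgebra.algebraMap_mem _ a
  | succ m ih =>
    rw [pow_succ] at hc
    refine Submodule.mul_induction_on hc (fun x hx y hy => ?_) fun x y hx hy => ?_
    · rw [pow_succ, mul_div_mul_comm]
      refine mul_mem (ih x hx) ?_
      induction hy using Submodule.span_induction with
      | mem y hy =>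
        obtain ⟨l, rfl⟩ := hy
        exact X.div_mem l hj
      | zero => simp
      | add y z _ _ hy hz => rw [add_div]; exact add_mem hy hz
      | smul a y _ hy => rw [smul_div_assoc]; exact Subalgebra.smul_mem _ hy a
    · rw [add_div]
      exact add_mem hx hy

theorem toK_mem (s : X.Idx) (z : Away (grade X) (prodGen X s.1)) : toK X s z ∈ X.A s.1 := by
  obtain ⟨n, a, ha, rfl⟩ := Away.mk_surjective _ (prodGen_mem X s.1) z
  obtain ⟨j, hj⟩ := s.2.1
  have h0 := X.ne_of_mem hj
  have : ev X a / ev X (prodGen X s.1) ^ n =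
      ev X a / X.f j ^ (n • s.1.card) * (∏ i ∈ s.1, X.f j / X.f i) ^ n := by
    rw [Finset.prod_div_distrib, Finset.prod_const, ev_prodGen, div_pow, ← pow_mul, smul_eq_mul,
      mul_comm n]
    field_simp
  rw [toK_mk, this]
  exact mul_mem (div_pow_mem X hj _ _ (ev_mem X ha))
    (pow_mem (Subalgebra.prod_mem _ fun i hi => X.div_mem j hi) _)

theorem toK_const (s : X.Idx) (c : k) :
    toK X s (fromZeroRingHom (grade X) _ (algebraMap k (grade X 0) c)) = algebraMap k K c := by
  have : fromZeroRingHom (grade X) _ (algebraMap k (grade X 0) c) =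
      Away.mk _ (prodGen_mem X s.1) 0 (algebraMap k _ c)
        (by rw [zero_smul]; exact (algebraMap k (grade X 0) c).2) := by
    ext
    simp [fromZeroRingHom]
  rw [this, toK_mk, pow_zero, div_one, ev_algebraMap]

theorem toK_surj (s : X.Idx) (x : K) (hx : x ∈ X.A s.1) : ∃ z, toK X s z = x := by
  induction hx using Algebra.adjoin_induction with
  | mem x hx =>
    obtain ⟨l, j, hj, rfl⟩ := hx
    refine ⟨Away.mk _ (prodGen_mem X s.1) 1 (gen X l * prodGen X (s.1.erase j)) ?_, ?_⟩
    · rw [one_smul, ← Finset.card_erase_add_one hj, add_comm]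
      exact SetLike.mul_mem_graded (gen_mem X l) (prodGen_mem X _)
    · have h0 := X.ne_of_mem hj
      have h1 : ∏ i ∈ s.1.erase j, X.f i ≠ 0 :=
        Finset.prod_ne_zero_iff.2 fun i hi => X.ne_of_mem (Finset.mem_of_mem_erase hi)
      rw [toK_mk, map_mul, ev_gen, ev_prodGen, ev_prodGen, pow_one,
        ← Finset.mul_prod_erase _ _ hj]
      field_simp
  | algebraMap c => exact ⟨_, toK_const X s c⟩
  | add x y _ _ hx hy =>
    obtain ⟨a, rfl⟩ := hx
    obtain ⟨b, rfl⟩ := hy
    exact ⟨a + b, map_add _ _ _⟩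
  | mul x y _ _ hx hy =>
    obtain ⟨a, rfl⟩ := hx
    obtain ⟨b, rfl⟩ := hy
    exact ⟨a * b, map_mul _ _ _⟩

/-- The ring of the chart `s` is the homogeneous localisation. -/
noncomputable def awayEquiv (s : X.Idx) : Away (grade X) (prodGen X s.1) ≃+* X.A s.1 :=
  RingEquiv.ofBijective ((toK X s).codRestrict (X.A s.1) (toK_mem X s))
    ⟨fun _ _ h => toK_injective X s (congrArg Subtype.val h), fun x => by
      obtain ⟨z, hz⟩ := toK_surj X s x.1 x.2
      exact ⟨z, Subtype.ext hz⟩⟩

theorem coe_awayEquiv (s : X.Idx) (z : Away (grade X) (prodGen X s.1)) :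
    (awayEquiv X s z : K) = toK X s z := rfl

theorem prodGen_eq {s t : X.Idx} (h : s ≤ t) :
    prodGen X t.1 = prodGen X s.1 * prodGen X (t.1 \ s.1) := by
  rw [prodGen, prodGen, prodGen, mul_comm, Finset.prod_sdiff h]

theorem toK_awayMap {s t : X.Idx} (h : s ≤ t) (z : Away (grade X) (prodGen X s.1)) :
    toK X t (awayMap (grade X) (prodGen_mem X (t.1 \ s.1)) (prodGen_eq X h) z) = toK X s z := by
  obtain ⟨n, a, ha, rfl⟩ := Away.mk_surjective _ (prodGen_mem X s.1) z
  have h0 := ev_prodGen_ne X t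
  rw [prodGen_eq X h, map_mul, mul_ne_zero_iff] at h0
  have e : awayMap (grade X) (prodGen_mem X (t.1 \ s.1)) (prodGen_eq X h)
      (Away.mk _ (prodGen_mem X s.1) n a ha) = Away.mk _ (prodGen_mem X t.1) n
        (a * prodGen X (t.1 \ s.1) ^ n) (by
          rw [← Finset.card_sdiff_add_card_eq_card h, add_comm, smul_add]
          exact SetLike.mul_mem_graded ha (SetLike.pow_mem_graded n (prodGen_mem X _))) := by
    ext
    rw [awayMap_mk]
    rfl
  rw [e, toK_mk, toK_mk, prodGen_eq X h, map_mul, map_mul, map_pow, mul_pow]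
  have := h0.1
  have := h0.2
  field_simp

end Pool.Agent.Lib.MP_cd184e_ag.B
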